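import Pool.Agent.W250.RS.Stm2
import Pool.Agent.W346.RS.C123

/-!
# Coincidences off `J` (project RS2, helper250)
-/

set_option autoImplicit false

open Finset

namespace Pool.Agent.W250.RS

open Pool.Agent.W346.RS (count_restrict)

theorem c4 : S_C4 := by
  intro α β _ _ X k N K G g ι ι' J hG hK hι hι' hne hoff
  have hGX : ∀ x ∈ G, ∀ j, x j ∈ X := by
    intro x hx
    have h1 := hG hx
    rw [tup, Fintype.mem_piFinset] at h1
    exact h1
  let e : Fin k ⊕ {i // i ∈ J} → Fin N := Sum.elim ι (fun i => ι' i.1)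
  have he : Function.Injective e := by
    rintro (i | i) (j | j) hij
    · exact congrArg Sum.inl (hι hij)
    · exact absurd j.2 (by
        obtain ⟨h1, h2⟩ := hne i j.1 hij
        rw [← h1]; exact h2)
    · exact absurd i.2 (by
        obtain ⟨h1, h2⟩ := hne j i.1 hij.symm
        rw [← h1]; exact h2)
    · exact congrArg Sum.inr (Subtype.ext (hι' hij))
  let Y : (Fin k ⊕ {i // i ∈ J} → α) → (Fin k → α) :=
    fun h i => if hi : i ∈ J then h (Sum.inr ⟨i, hi⟩) else h (Sum.inl i)
  let H : Finset (Fin k ⊕ {i // i ∈ J} → α) := (Fintype.piFinset fun _ => X).filter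
    (fun h => h ∘ Sum.inl ∈ G ∧ Y h ∈ G ∧ g (Y h) = g (h ∘ Sum.inl))
  have hH : ∀ h ∈ H, ∀ j, h j ∈ X := by
    intro h hh
    exact Fintype.mem_piFinset.1 (mem_filter.1 hh).1
  have h1 := count_restrict X N e he H hH
  have h2 : (tup X N).filter (fun f => f ∘ e ∈ H) =
      (tup X N).filter (fun f => f ∘ ι ∈ G ∧ f ∘ ι' ∈ G ∧ g (f ∘ ι') = g (f ∘ ι)) := by
    refine filter_congr fun f hf => ?_
    have hf' : ∀ i, f i ∈ X := by
      rw [tup, Fintype.mem_piFinset] at hf
      exact hf
    have e1 : (f ∘ e) ∘ Sum.inl = f ∘ ι := rfl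
    have e2 : Y (f ∘ e) = f ∘ ι' := by
      funext i
      show (if hi : i ∈ J then (f ∘ e) (Sum.inr ⟨i, hi⟩) else (f ∘ e) (Sum.inl i)) = f (ι' i)
      split_ifs with hi
      · rfl
      · show f (ι i) = f (ι' i)
        rw [hoff i hi]
    rw [mem_filter, e1, e2]
    constructor
    · exact fun h => h.2
    · exact fun h => ⟨Fintype.mem_piFinset.2 fun j => hf' _, h⟩
  have h3 : H.card ≤ G.card * K := by
    have h4 : H.card ≤ (G.sigma fun x =>
        G.filter (fun y => g y = g x ∧ ∀ i, i ∉ J → y i = x i)).card := by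
      refine Finset.card_le_card_of_injOn (fun h => ⟨h ∘ Sum.inl, Y h⟩) ?_ ?_
      · intro h hh
        obtain ⟨-, a1, a2, a3⟩ := mem_filter.1 hh
        rw [Finset.mem_coe, mem_sigma]
        refine ⟨a1, mem_filter.2 ⟨a2, a3, fun i hi => ?_⟩⟩
        show (if hi : i ∈ J then h (Sum.inr ⟨i, hi⟩) else h (Sum.inl i)) = h (Sum.inl i)
        rw [dif_neg hi]
      · intro h _ h' _ hhh
        have b1 : h ∘ Sum.inl = h' ∘ Sum.inl := congrArg (fun z => z.1) hhh
        have b2 : Y h = Y h' := by
          simp only [Sigma.mk.injEq] at hhh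
          exact eq_of_heq hhh.2
        funext i
        rcases i with i | i
        · exact congrFun b1 i
        · have b3 := congrFun b2 i.1
          have b4 : ∀ u : Fin k ⊕ {i // i ∈ J} → α, Y u i.1 = u (Sum.inr i) := by
            intro u
            show (if hi : i.1 ∈ J then u (Sum.inr ⟨i.1, hi⟩) else u (Sum.inl i.1)) = u (Sum.inr i)
            rw [dif_pos i.2]
          rw [b4, b4] at b3
          exact b3
    refine h4.trans ?_
    rw [card_sigma]
    calc ∑ x ∈ G, (G.filter (fun y => g y = g x ∧ ∀ i, i ∉ J → y i = x i)).card ≤ ∑ _x ∈ G, K :=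
          sum_le_sum fun x hx => hK x hx
      _ = G.card * K := by rw [sum_const, smul_eq_mul]
  rw [h2, Fintype.card_sum, Fintype.card_fin, Fintype.card_coe] at h1
  rw [h1]
  exact Nat.mul_le_mul_right _ h3

end Pool.Agent.W250.RS
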