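import Pool.Agent.W250.RS.Stm2

/-!
# Sums and products along one dense hypergraph (project RS2, helper250)
-/

set_option autoImplicit false

open Finset

namespace Pool.Agent.W250.RS

/-- The points of a set of tuples `(x; y, z)`. -/
noncomputable def pts (t : ℕ) (W : Finset ((Fin t → ℝ) × ℝ × ℝ)) : Finset (ℝ × ℝ) :=
  W.image (fun w => ((∑ i, w.1 i) + w.2.1, (∏ i, w.1 i) * w.2.2))

theorem bt (hS : S_STG) (t : ℕ) : ∀ q : ℕ, 1 ≤ q → ∃ C : ℕ, 1 ≤ C ∧ ∀ (A : Finset ℝ)
    (W : Finset ((Fin t → ℝ) × ℝ × ℝ)), C ≤ A.card → (0 : ℝ) ∉ A →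
    (∀ w ∈ W, (∀ i, w.1 i ∈ A) ∧ w.2.1 ∈ A ∧ w.2.2 ∈ A) → A.card ^ (t + 2) ≤ q * W.card →
    A.card ^ (3 * 2 ^ t - 1) ≤ C * (pts t W).card ^ (2 ^ t) := by
  classical
  induction t with
  | zero =>
    intro q hq
    refine ⟨q, hq, ?_⟩
    intro A W _ _ _ hWc
    have h1 : (pts 0 W).card = W.card := by
      unfold pts
      apply card_image_of_injOn
      intro w _ w' _ h
      have e1 := congrArg Prod.fst h
      have e2 := congrArg Prod.snd h
      simp only [univ_eq_empty, sum_empty, prod_empty, zero_add, one_mul] at e1 e2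
      exact Prod.ext (Subsingleton.elim _ _) (Prod.ext e1 e2)
    rw [h1]
    simpa using hWc
  | succ t ih =>
    intro q hq
    obtain ⟨C, hC, ih⟩ := ih (2 * q) (by omega)
    refine ⟨(4 * q + C * C) * C * (8 * q ^ 3 * 1152 ^ 2) ^ (2 ^ t),
      Nat.one_le_iff_ne_zero.mpr (by positivity), ?_⟩
    intro A W hCA h0 hW hWc
    set n := A.card with hn
    have hbig : 4 * q + C * C ≤ n := by
      refine le_trans ?_ hCA
      rw [mul_assoc]
      exact Nat.le_mul_of_pos_right _ (by positivity)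
    have hn0 : 0 < n := by omega
    have hCn : C ≤ n := by nlinarith
    have hCCn : C * C ≤ n := by omega
    -- the good tails
    let Tt : Finset ((Fin t → ℝ) × ℝ × ℝ) := (Fintype.piFinset fun _ => A) ×ˢ (A ×ˢ A)
    have hTt : Tt.card = n ^ (t + 2) := by
      rw [card_product, card_product, Fintype.card_piFinset, prod_const, card_univ,
        Fintype.card_fin]
      ring
    let cns : ℝ → ((Fin t → ℝ) × ℝ × ℝ) → ((Fin (t + 1) → ℝ) × ℝ × ℝ) :=
      fun a v => (Fin.cons a v.1, v.2.1, v.2.2)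
    set V := Tt.filter (fun v => n ≤ 2 * q * (A.filter (fun a => cns a v ∈ W)).card) with hV
    have hcount : W.card ≤ ∑ v ∈ Tt, (A.filter (fun a => cns a v ∈ W)).card := by
      have h1 : W.card ≤ ((Tt ×ˢ A).filter (fun p => cns p.2 p.1 ∈ W)).card := by
        have h2 : W ⊆ ((Tt ×ˢ A).filter (fun p => cns p.2 p.1 ∈ W)).image
            (fun p => cns p.2 p.1) := by
          intro w hw
          obtain ⟨w1, w2, w3⟩ := hW w hw
          have e : cns (w.1 0) (fun i => w.1 i.succ, w.2.1, w.2.2) = w := by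
            refine Prod.ext ?_ rfl
            exact Fin.cons_self_tail w.1
          refine mem_image.2 ⟨((fun i => w.1 i.succ, w.2.1, w.2.2), w.1 0), ?_, e⟩
          refine mem_filter.2 ⟨mem_product.2 ⟨mem_product.2 ⟨?_, mem_product.2 ⟨w2, w3⟩⟩, w1 0⟩, ?_⟩
          · exact Fintype.mem_piFinset.2 fun i => w1 i.succ
          · show cns (w.1 0) (fun i => w.1 i.succ, w.2.1, w.2.2) ∈ W
            rw [e]; exact hw
        exact (card_le_card h2).trans card_image_le
      refine h1.trans (le_of_eq ?_)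
      rw [card_filter, sum_product]
      apply sum_congr rfl
      intro v _
      rw [card_filter]
    have hVc : n ^ (t + 2) ≤ 2 * q * V.card := by
      have h1 : 2 * q * ∑ v ∈ Tt, (A.filter (fun a => cns a v ∈ W)).card ≤
          2 * q * (V.card * n) + n ^ (t + 2) * n := by
        have h2 : ∀ v ∈ Tt, 2 * q * (A.filter (fun a => cns a v ∈ W)).card ≤
            2 * q * (if n ≤ 2 * q * (A.filter (fun a => cns a v ∈ W)).card then n else 0) + n := by
          intro v _
          split_ifs with h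
          · have : (A.filter (fun a => cns a v ∈ W)).card ≤ n := card_filter_le _ _
            have := Nat.mul_le_mul_left (2 * q) this
            omega
          · omega
        rw [mul_sum]
        refine (sum_le_sum h2).trans (le_of_eq ?_)
        rw [sum_add_distrib, ← mul_sum, ← sum_filter, sum_const, sum_const, smul_eq_mul,
          smul_eq_mul, hTt]
      have h3 : 2 * (n ^ (t + 2) * n) ≤ 2 * q * (V.card * n) + n ^ (t + 2) * n := by
        calc 2 * (n ^ (t + 2) * n) = 2 * n ^ (t + 1 + 2) := by ring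
          _ ≤ 2 * (q * W.card) := Nat.mul_le_mul_left _ hWc
          _ = 2 * q * W.card := by ring
          _ ≤ _ := (Nat.mul_le_mul_left _ hcount).trans h1
      have h4 : n ^ (t + 2) * n ≤ (2 * q * V.card) * n := by
        have : 2 * q * (V.card * n) = (2 * q * V.card) * n := by ring
        omega
      exact Nat.le_of_mul_le_mul_right h4 hn0
    have hVA : ∀ v ∈ V, (∀ i, v.1 i ∈ A) ∧ v.2.1 ∈ A ∧ v.2.2 ∈ A := by
      intro v hv
      have h1 := mem_product.1 (mem_filter.1 hv).1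
      have h2 := mem_product.1 h1.2
      exact ⟨Fintype.mem_piFinset.1 h1.1, h2.1, h2.2⟩
    have hih := ih A V hCn h0 hVA hVc
    set D := pts t V with hD
    set D' := pts (t + 1) W with hD'
    -- the lines
    have hD0 : ∀ d ∈ D, d.2 ≠ 0 := by
      intro d hd
      obtain ⟨v, hv, rfl⟩ := mem_image.1 hd
      obtain ⟨v1, _, v3⟩ := hVA v hv
      refine mul_ne_zero (prod_ne_zero_iff.2 fun i _ hi => h0 ?_) (fun h => h0 ?_)
      · rw [← hi]; exact v1 i
      · rw [← h]; exact v3
    set L := D.image (fun d => (d.2, -(d.2 * d.1))) with hL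
    have hLc : L.card = D.card := by
      rw [hL]
      apply card_image_of_injOn
      intro p hp q' _ hpq
      have e1 : p.2 = q'.2 := congrArg Prod.fst hpq
      have e2 : -(p.2 * p.1) = -(q'.2 * q'.1) := congrArg Prod.snd hpq
      rw [← e1] at e2
      exact Prod.ext (mul_left_cancel₀ (hD0 p (mem_coe.1 hp)) (neg_injective e2)) e1
    obtain ⟨j, hj1, hjm⟩ : ∃ j, n ≤ 2 * q * j ∧ ∀ s : ℕ, n ≤ 2 * q * s → j ≤ s := by
      refine ⟨(n + 2 * q - 1) / (2 * q), ?_, ?_⟩
      · have h1 := Nat.lt_mul_div_succ (n + 2 * q - 1) (show 0 < 2 * q by omega)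
        rw [mul_add, mul_one] at h1
        omega
      · intro s hs
        have h1 : (n + 2 * q - 1) / (2 * q) < s + 1 := by
          rw [Nat.div_lt_iff_lt_mul (by omega)]
          have : (s + 1) * (2 * q) = 2 * q * s + 2 * q := by ring
          omega
        omega
    have hjn : j ≤ n := hjm n (by nlinarith)
    have hj2 : 2 ≤ j := by
      by_contra hc
      push Not at hc
      have : 2 * q * j ≤ 2 * q * 1 := Nat.mul_le_mul_left _ (by omega)
      omega
    have hst := hS D' L j hj2 (by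
      intro l hl
      obtain ⟨d, hd, rfl⟩ := mem_image.1 hl
      exact hD0 d hd) (by
      intro l hl
      obtain ⟨d, hd, rfl⟩ := mem_image.1 hl
      obtain ⟨v, hv, hvd⟩ := mem_image.1 hd
      have h1 := hjm _ (mem_filter.1 hv).2
      refine h1.trans ?_
      apply card_le_card_of_injOn (fun a => (a + d.1, a * d.2))
      · intro a ha
        have ha' := (mem_filter.1 (mem_coe.1 ha)).2
        refine mem_coe.2 (mem_filter.2 ⟨mem_image.2 ⟨cns a v, ha', ?_⟩, ?_⟩)
        · have e1 : d.1 = (∑ i, v.1 i) + v.2.1 := by rw [← hvd]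
          have e2 : d.2 = (∏ i, v.1 i) * v.2.2 := by rw [← hvd]
          refine Prod.ext ?_ ?_
          · show (∑ i, (Fin.cons a v.1 : Fin (t + 1) → ℝ) i) + v.2.1 = a + d.1
            rw [Fin.sum_univ_succ, e1]
            simp only [Fin.cons_zero, Fin.cons_succ]
            ring
          · show (∏ i, (Fin.cons a v.1 : Fin (t + 1) → ℝ) i) * v.2.2 = a * d.2
            rw [Fin.prod_univ_succ, e2]
            simp only [Fin.cons_zero, Fin.cons_succ]
            ring
        · show a * d.2 = d.2 * (a + d.1) + -(d.2 * d.1)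
          ring
      · intro a _ b _ hab
        exact add_right_cancel (congrArg Prod.fst hab))
    rw [hLc] at hst
    have hpow : 1 ≤ 2 ^ t := Nat.one_le_two_pow
    have hnD : n ≤ D.card := by
      by_contra hc
      push Not at hc
      have e1 : n ^ (2 ^ t) * n ≤ n ^ (3 * 2 ^ t - 1) := by
        rw [← pow_succ]
        exact Nat.pow_le_pow_right hn0 (by omega)
      have e2 : D.card ^ (2 ^ t) ≤ n ^ (2 ^ t) := Nat.pow_le_pow_left hc.le _
      have e3 : D.card ^ (2 ^ t) < n ^ (2 ^ t) := Nat.pow_lt_pow_left hc (by omega)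
      have e4 : C * D.card ^ (2 ^ t) < C * n ^ (2 ^ t) := Nat.mul_lt_mul_of_pos_left e3 hC
      have e5 : C * n ^ (2 ^ t) ≤ n ^ (2 ^ t) * n := by
        rw [mul_comm]; exact Nat.mul_le_mul_left _ hCn
      exact absurd (e5.trans (e1.trans hih)) (not_le.2 e4)
    have hjD : j ^ 3 * D.card ≤ 1152 ^ 2 * D'.card ^ 2 := by
      rcases le_or_gt (j ^ 2) D'.card with h1 | h1
      · have h2 : j ^ 2 * D'.card ≤ D'.card * D'.card := Nat.mul_le_mul_right _ h1
        nlinarith
      · have h2 : D'.card * D'.card ≤ j ^ 2 * D'.card := Nat.mul_le_mul_right _ h1.le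
        have h3 : j ^ 2 * (j * D.card) ≤ j ^ 2 * (1152 * D'.card) := by
          calc j ^ 2 * (j * D.card) = j ^ 3 * D.card := by ring
            _ ≤ 576 * (D'.card ^ 2 + j ^ 2 * D'.card) := hst
            _ ≤ j ^ 2 * (1152 * D'.card) := by nlinarith
        have h4 : j * D.card ≤ 1152 * D'.card :=
          Nat.le_of_mul_le_mul_left h3 (by positivity)
        have h5 : (j * D.card) ^ 2 ≤ (1152 * D'.card) ^ 2 := Nat.pow_le_pow_left h4 2
        have h6 : j ^ 3 * D.card ≤ (j * D.card) ^ 2 := by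
          calc j ^ 3 * D.card = j ^ 2 * D.card * j := by ring
            _ ≤ j ^ 2 * D.card * D.card := Nat.mul_le_mul_left _ (hjn.trans hnD)
            _ = (j * D.card) ^ 2 := by ring
        calc j ^ 3 * D.card ≤ (j * D.card) ^ 2 := h6
          _ ≤ (1152 * D'.card) ^ 2 := h5
          _ = 1152 ^ 2 * D'.card ^ 2 := by ring
    have hn3 : D.card * n ^ 3 ≤ (8 * q ^ 3 * 1152 ^ 2) * D'.card ^ 2 := by
      calc D.card * n ^ 3 ≤ D.card * (2 * q * j) ^ 3 :=
            Nat.mul_le_mul_left _ (Nat.pow_le_pow_left hj1 3)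
        _ = 8 * q ^ 3 * (j ^ 3 * D.card) := by ring
        _ ≤ 8 * q ^ 3 * (1152 ^ 2 * D'.card ^ 2) := Nat.mul_le_mul_left _ hjD
        _ = (8 * q ^ 3 * 1152 ^ 2) * D'.card ^ 2 := by ring
    have e1 : 3 * 2 ^ (t + 1) - 1 = (3 * 2 ^ t - 1) + 3 * 2 ^ t := by
      rw [pow_succ]
      omega
    calc n ^ (3 * 2 ^ (t + 1) - 1) = n ^ (3 * 2 ^ t - 1) * n ^ (3 * 2 ^ t) := by
          rw [e1, pow_add]
      _ ≤ (C * D.card ^ (2 ^ t)) * n ^ (3 * 2 ^ t) := Nat.mul_le_mul_right _ hih
      _ = C * (D.card * n ^ 3) ^ (2 ^ t) := by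
          rw [mul_pow _ (n ^ 3), ← pow_mul]; ring
      _ ≤ C * ((8 * q ^ 3 * 1152 ^ 2) * D'.card ^ 2) ^ (2 ^ t) :=
          Nat.mul_le_mul_left _ (Nat.pow_le_pow_left hn3 _)
      _ = 1 * (C * (8 * q ^ 3 * 1152 ^ 2) ^ (2 ^ t) * D'.card ^ (2 ^ (t + 1))) := by
          rw [mul_pow _ (D'.card ^ 2), ← pow_mul, ← pow_succ']; ring
      _ ≤ (4 * q + C * C) * (C * (8 * q ^ 3 * 1152 ^ 2) ^ (2 ^ t) * D'.card ^ (2 ^ (t + 1))) :=
          Nat.mul_le_mul_right _ (by omega)
      _ = (4 * q + C * C) * C * (8 * q ^ 3 * 1152 ^ 2) ^ (2 ^ t) * D'.card ^ (2 ^ (t + 1)) := by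
          ring

theorem inc (hS : S_STG) : S_INC := by
  classical
  intro t q hq
  obtain ⟨C, hC, hb⟩ := bt hS t (q ^ 2) (Nat.one_le_pow _ _ hq)
  refine ⟨C, hC, ?_⟩
  intro ι _ _ A W hι hCA h0 hW hWc
  let e : Fin (t + 1) ≃ ι := (Fintype.equivFinOfCardEq hι).symm
  set n := A.card with hn
  have hn0 : 0 < n := by omega
  let Φ : (Fin t → ℝ) → ℝ → (ι → ℝ) := fun x a => fun i => (Fin.cons a x : Fin (t + 1) → ℝ) (e.symm i)
  have hΦs : ∀ x a, ∑ i, Φ x a i = (∑ i, x i) + a := by
    intro x a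
    have h1 : ∑ i, Φ x a i = ∑ j, (Fin.cons a x : Fin (t + 1) → ℝ) j :=
      Equiv.sum_comp e.symm (fun j => (Fin.cons a x : Fin (t + 1) → ℝ) j)
    rw [h1, Fin.sum_univ_succ]
    simp only [Fin.cons_zero, Fin.cons_succ]
    ring
  have hΦp : ∀ x a, ∏ i, Φ x a i = (∏ i, x i) * a := by
    intro x a
    have h1 : ∏ i, Φ x a i = ∏ j, (Fin.cons a x : Fin (t + 1) → ℝ) j :=
      Equiv.prod_comp e.symm (fun j => (Fin.cons a x : Fin (t + 1) → ℝ) j)
    rw [h1, Fin.prod_univ_succ]
    simp only [Fin.cons_zero, Fin.cons_succ]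
    ring
  set T : Finset (Fin t → ℝ) := Fintype.piFinset fun _ => A with hT
  have hTc : T.card = n ^ t := by
    rw [hT, Fintype.card_piFinset, prod_const, card_univ, Fintype.card_fin]
  have hcount : W.card ≤ ∑ x ∈ T, (A.filter (fun a => Φ x a ∈ W)).card := by
    have h1 : W.card ≤ ((T ×ˢ A).filter (fun p => Φ p.1 p.2 ∈ W)).card := by
      have h2 : W ⊆ ((T ×ˢ A).filter (fun p => Φ p.1 p.2 ∈ W)).image (fun p => Φ p.1 p.2) := by
        intro w hw
        have w1 := hW w hw
        have ee : Φ (fun i => w (e i.succ)) (w (e 0)) = w := by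
          funext i
          show (Fin.cons (w (e 0)) (fun i : Fin t => w (e i.succ)) : Fin (t + 1) → ℝ) (e.symm i) = w i
          have : (Fin.cons (w (e 0)) (fun i : Fin t => w (e i.succ)) : Fin (t + 1) → ℝ) =
              fun j => w (e j) := by
            funext j
            refine Fin.cases rfl (fun j => rfl) j
          rw [this]
          exact congrArg w (e.apply_symm_apply i)
        refine mem_image.2 ⟨(fun i => w (e i.succ), w (e 0)), ?_, ee⟩
        refine mem_filter.2 ⟨mem_product.2 ⟨Fintype.mem_piFinset.2 fun i => w1 _, w1 _⟩, ?_⟩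
        show Φ (fun i => w (e i.succ)) (w (e 0)) ∈ W
        rw [ee]; exact hw
      exact (card_le_card h2).trans card_image_le
    refine h1.trans (le_of_eq ?_)
    rw [card_filter, sum_product]
    apply sum_congr rfl
    intro v _
    rw [card_filter]
  set W' : Finset ((Fin t → ℝ) × ℝ × ℝ) :=
    (T ×ˢ (A ×ˢ A)).filter (fun p => Φ p.1 p.2.1 ∈ W ∧ Φ p.1 p.2.2 ∈ W) with hW'
  have hW'c : W'.card = ∑ x ∈ T, (A.filter (fun a => Φ x a ∈ W)).card ^ 2 := by
    rw [hW', card_filter, sum_product]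
    apply sum_congr rfl
    intro x _
    rw [← card_filter, pow_two, ← card_product, ← filter_product]
  have hcs : W.card ^ 2 ≤ n ^ t * W'.card := by
    rw [hW'c, ← hTc]
    exact (Nat.pow_le_pow_left hcount 2).trans sq_sum_le_card_mul_sum_sq
  have hWc2 : n ^ (t + 2) ≤ q ^ 2 * W'.card := by
    have h1 : n ^ t * n ^ (t + 2) ≤ n ^ t * (q ^ 2 * W'.card) := by
      calc n ^ t * n ^ (t + 2) = (n ^ (t + 1)) ^ 2 := by ring
        _ ≤ (q * W.card) ^ 2 := Nat.pow_le_pow_left hWc 2
        _ = q ^ 2 * W.card ^ 2 := by ring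
        _ ≤ q ^ 2 * (n ^ t * W'.card) := Nat.mul_le_mul_left _ hcs
        _ = n ^ t * (q ^ 2 * W'.card) := by ring
    exact Nat.le_of_mul_le_mul_left h1 (by positivity)
  have key := hb A W' hCA h0 (by
    intro w hw
    have h1 := mem_product.1 (mem_filter.1 hw).1
    have h2 := mem_product.1 h1.2
    exact ⟨Fintype.mem_piFinset.1 h1.1, h2.1, h2.2⟩) hWc2
  refine key.trans (Nat.mul_le_mul_left _ (Nat.pow_le_pow_left ?_ _))
  rw [← card_product]
  apply card_le_card
  intro p hp
  obtain ⟨w, hw, rfl⟩ := mem_image.1 hp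
  have h1 := (mem_filter.1 hw).2
  exact mem_product.2 ⟨mem_image.2 ⟨_, h1.1, hΦs _ _⟩, mem_image.2 ⟨_, h1.2, hΦp _ _⟩⟩

end Pool.Agent.W250.RS
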