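import Pool.Agent.W250.RS.Stm2

set_option autoImplicit false

open Finset

namespace Pool.Agent.W250.RSMix

open Pool.Agent.W250.RS

theorem t_MIX (h : S_INC) : S_MIX := by
  intro k q hq
  have h' := fun t : ℕ => h t q hq
  choose Cf hCf1 hCf using h'
  refine ⟨1 + ∑ t ∈ Finset.range k, Cf t, by omega, ?_⟩
  intro R _ _ φ hφ X W J J' t hT hC hX0 hW hWc
  set T : Finset (Fin k) := J ∩ J' with hTdef
  have htk : t + 1 ≤ k := by
    have := Finset.card_le_univ T
    rw [Fintype.card_fin] at this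
    omega
  have hCt : Cf t ≤ ∑ t ∈ Finset.range k, Cf t :=
    Finset.single_le_sum (f := Cf) (fun _ _ => Nat.zero_le _) (Finset.mem_range.2 (by omega))
  have hXpos : 0 < X.card := by omega
  have hXne : X.Nonempty := Finset.card_pos.1 hXpos
  -- pigeonhole
  let Z : Finset ({i : Fin k // i ∉ T} → R) := Fintype.piFinset fun _ => X
  let ρ : (Fin k → R) → ({i : Fin k // i ∉ T} → R) := fun w i => w i.1
  have hZne : Z.Nonempty := by
    obtain ⟨x0, hx0⟩ := hXne
    exact ⟨fun _ => x0, Fintype.mem_piFinset.2 (fun _ => hx0)⟩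
  have hZcard : Z.card = X.card ^ (k - (t + 1)) := by
    show (Fintype.piFinset fun _ : {i : Fin k // i ∉ T} => X).card = _
    rw [Fintype.card_piFinset, Finset.prod_const, Finset.card_univ, Fintype.card_subtype_compl,
      Fintype.card_fin, Fintype.card_coe, hT]
  have hmaps : ∀ w ∈ W, ρ w ∈ Z := by
    intro w hw
    refine Fintype.mem_piFinset.2 (fun i => ?_)
    exact Fintype.mem_piFinset.1 (hW hw) i.1
  have hsum : W.card = ∑ z ∈ Z, (W.filter (fun w => ρ w = z)).card :=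
    Finset.card_eq_sum_card_fiberwise hmaps
  obtain ⟨z, hz, hzc⟩ : ∃ z ∈ Z, X.card ^ (t + 1) ≤ q * (W.filter (fun w => ρ w = z)).card := by
    refine Finset.exists_le_of_sum_le hZne ?_
    rw [Finset.sum_const, hZcard, smul_eq_mul, ← pow_add, ← Finset.mul_sum, ← hsum]
    have : k - (t + 1) + (t + 1) = k := by omega
    rw [this]
    exact hWc
  set Wz := W.filter (fun w => ρ w = z) with hWz
  have hWzpos : 0 < Wz.card := by
    rcases Nat.eq_zero_or_pos Wz.card with h0 | h0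
    · rw [h0, mul_zero] at hzc
      have := Nat.pow_pos (n := t + 1) hXpos
      omega
    · exact h0
  obtain ⟨w0, hw0⟩ := Finset.card_pos.1 hWzpos
  have hoff : ∀ w ∈ Wz, ∀ i, i ∉ T → w i = w0 i := by
    intro w hw i hi
    have h1 := (Finset.mem_filter.1 hw).2
    have h2 := (Finset.mem_filter.1 hw0).2
    have h3 : ρ w = ρ w0 := h1.trans h2.symm
    exact congrFun h3 ⟨i, hi⟩
  have hmemX : ∀ w ∈ Wz, ∀ i, w i ∈ X := fun w hw i =>
    Fintype.mem_piFinset.1 (hW (Finset.mem_filter.1 hw).1) i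
  classical
  let ψ : (Fin k → R) → ({i : Fin k // i ∈ T} → ℝ) := fun w i => φ (w i.1)
  let A : Finset ℝ := X.image φ
  have hAcard : A.card = X.card := Finset.card_image_of_injective _ hφ
  let W' : Finset ({i : Fin k // i ∈ T} → ℝ) := Wz.image ψ
  have hW'card : W'.card = Wz.card := by
    refine Finset.card_image_of_injOn ?_
    intro w hw w' hw' he
    funext i
    by_cases hi : i ∈ T
    · exact hφ (congrFun he ⟨i, hi⟩)
    · rw [hoff w hw i hi, hoff w' hw' i hi]
  have hA0 : (0:ℝ) ∉ A := by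
    intro h0
    obtain ⟨x, hx, hx0⟩ := Finset.mem_image.1 h0
    have : x = 0 := hφ (by rw [hx0, map_zero])
    exact hX0 (this ▸ hx)
  have key := hCf t {i : Fin k // i ∈ T} A W' (by rw [Fintype.card_coe, hT])
    (by rw [hAcard]; omega) hA0
    (by
      intro w' hw' i
      obtain ⟨w, hw, rfl⟩ := Finset.mem_image.1 hw'
      exact Finset.mem_image_of_mem _ (hmemX w hw i.1))
    (by rw [hAcard, hW'card]; exact hzc)
  rw [hAcard] at key
  have hsumc : (W'.image (fun x => ∑ i, x i)).card ≤ (W.image (fun x => ∑ i ∈ J, x i)).card := by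
    have hsub : W'.image (fun x => ∑ i, x i) ⊆
        (W.image (fun x => ∑ i ∈ J, x i)).image
          (fun s => φ s - φ (∑ i ∈ J \ T, w0 i)) := by
      intro y hy
      obtain ⟨x, hx, rfl⟩ := Finset.mem_image.1 hy
      obtain ⟨w, hw, rfl⟩ := Finset.mem_image.1 hx
      refine Finset.mem_image.2 ⟨∑ i ∈ J, w i,
        Finset.mem_image.2 ⟨w, (Finset.mem_filter.1 hw).1, rfl⟩, ?_⟩
      have h1 : ∑ i ∈ J \ T, w i = ∑ i ∈ J \ T, w0 i :=
        Finset.sum_congr rfl (fun i hi => hoff w hw i (Finset.mem_sdiff.1 hi).2)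
      have h2 : ∑ i ∈ J, w i = ∑ i ∈ J \ T, w i + ∑ i ∈ T, w i :=
        (Finset.sum_sdiff Finset.inter_subset_left).symm
      have h3 : ∑ i : {i : Fin k // i ∈ T}, ψ w i = ∑ i ∈ T, φ (w i) :=
        Finset.sum_coe_sort T (fun i => φ (w i))
      show φ (∑ i ∈ J, w i) - φ (∑ i ∈ J \ T, w0 i) = ∑ i : {i : Fin k // i ∈ T}, ψ w i
      rw [h3, h2, h1, map_add, ← map_sum]
      ring
    exact le_trans (Finset.card_le_card hsub) Finset.card_image_le
  have hprodc : (W'.image (fun x => ∏ i, x i)).card ≤ (W.image (fun x => ∏ i ∈ J', x i)).card := by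
    have hp0 : φ (∏ i ∈ J' \ T, w0 i) ≠ 0 := by
      rw [map_prod]
      refine Finset.prod_ne_zero_iff.2 (fun i _ h0 => ?_)
      have h1 : w0 i = 0 := hφ (by rw [h0, map_zero])
      exact hX0 (h1 ▸ hmemX w0 hw0 i)
    have hsub : W'.image (fun x => ∏ i, x i) ⊆
        (W.image (fun x => ∏ i ∈ J', x i)).image
          (fun s => φ s / φ (∏ i ∈ J' \ T, w0 i)) := by
      intro y hy
      obtain ⟨x, hx, rfl⟩ := Finset.mem_image.1 hy
      obtain ⟨w, hw, rfl⟩ := Finset.mem_image.1 hx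
      refine Finset.mem_image.2 ⟨∏ i ∈ J', w i,
        Finset.mem_image.2 ⟨w, (Finset.mem_filter.1 hw).1, rfl⟩, ?_⟩
      have h1 : ∏ i ∈ J' \ T, w i = ∏ i ∈ J' \ T, w0 i :=
        Finset.prod_congr rfl (fun i hi => hoff w hw i (Finset.mem_sdiff.1 hi).2)
      have h2 : ∏ i ∈ J', w i = (∏ i ∈ J' \ T, w i) * ∏ i ∈ T, w i :=
        (Finset.prod_sdiff Finset.inter_subset_right).symm
      have h3 : ∏ i : {i : Fin k // i ∈ T}, ψ w i = ∏ i ∈ T, φ (w i) :=
        Finset.prod_coe_sort T (fun i => φ (w i))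
      show φ (∏ i ∈ J', w i) / φ (∏ i ∈ J' \ T, w0 i) = ∏ i : {i : Fin k // i ∈ T}, ψ w i
      rw [h3, h2, h1, map_mul, ← map_prod, mul_div_cancel_left₀ _ hp0]
    exact le_trans (Finset.card_le_card hsub) Finset.card_image_le
  calc X.card ^ (3 * 2 ^ t - 1) ≤ Cf t * ((W'.image (fun x => ∑ i, x i)).card *
        (W'.image (fun x => ∏ i, x i)).card) ^ (2 ^ t) := key
    _ ≤ (1 + ∑ t ∈ Finset.range k, Cf t) * ((W.image (fun x => ∑ i ∈ J, x i)).card *
        (W.image (fun x => ∏ i ∈ J', x i)).card) ^ (2 ^ t) :=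
      Nat.mul_le_mul (by omega) (Nat.pow_le_pow_left (Nat.mul_le_mul hsumc hprodc) _)

end Pool.Agent.W250.RSMix
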