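import Pool.Agent.W250.RS.Stm2
import Pool.Agent.Helper309.Aff.A1

/-!
# Szemerédi-Trotter for arbitrary point sets (project RS2, helper250)
-/

set_option autoImplicit false

open Finset

namespace Pool.Agent.W250.RS

theorem stg : S_STG := by
  classical
  intro V Ls j hj _ h
  -- a generic shear
  obtain ⟨e, he⟩ := Infinite.exists_notMem_finset
    ((V ×ˢ V).image (fun p => (p.2.1 - p.1.1) / (p.1.2 - p.2.2)) ∪ Ls.image (fun l => -(1 / l.1)) ∪ {0})
  rw [mem_union, mem_union, not_or, not_or, mem_singleton] at he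
  obtain ⟨⟨he1, he2⟩, he0⟩ := he
  have hl : ∀ l ∈ Ls, 1 + l.1 * e ≠ 0 := by
    intro l hlL h0
    apply he2
    refine mem_image.2 ⟨l, hlL, ?_⟩
    have hl0 : l.1 ≠ 0 := by
      rintro h1
      rw [h1, zero_mul, add_zero] at h0
      exact one_ne_zero h0
    field_simp
    linarith
  let S : ℝ × ℝ → ℝ × ℝ := fun p => (p.1 + e * p.2, p.2)
  let T : ℝ × ℝ → ℝ × ℝ := fun l => (l.1 / (1 + l.1 * e), l.2 / (1 + l.1 * e))
  have hSi : Function.Injective S := by
    intro p q hpq
    have h2 : p.2 = q.2 := by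
      have := congrArg Prod.snd hpq
      exact this
    have h1 : p.1 + e * p.2 = q.1 + e * q.2 := by
      have := congrArg Prod.fst hpq
      exact this
    rw [h2] at h1
    exact Prod.ext (add_right_cancel h1) h2
  have hTi : Set.InjOn T Ls := by
    intro l hlL l' hlL' hll
    have a1 := hl l (mem_coe.1 hlL)
    have a2 := hl l' (mem_coe.1 hlL')
    have h1 : l.1 / (1 + l.1 * e) = l'.1 / (1 + l'.1 * e) := by
      have := congrArg Prod.fst hll
      exact this
    have h2 : l.2 / (1 + l.1 * e) = l'.2 / (1 + l'.1 * e) := by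
      have := congrArg Prod.snd hll
      exact this
    rw [div_eq_div_iff a1 a2] at h1 h2
    have h3 : l.1 = l'.1 := by linarith
    rw [h3] at h2
    rw [h3] at a1
    exact Prod.ext h3 (mul_right_cancel₀ a1 (by linarith))
  have hx : ∀ p ∈ V.image S, ∀ q ∈ V.image S, p.1 = q.1 → p = q := by
    intro p hp q hq hpq
    obtain ⟨p', hp', rfl⟩ := mem_image.1 hp
    obtain ⟨q', hq', rfl⟩ := mem_image.1 hq
    have h1 : p'.1 + e * p'.2 = q'.1 + e * q'.2 := hpq
    by_cases h2 : p'.2 = q'.2
    · rw [h2] at h1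
      rw [Prod.ext (add_right_cancel h1) h2]
    · exfalso
      apply he1
      refine mem_image.2 ⟨(p', q'), mem_product.2 ⟨hp', hq'⟩, ?_⟩
      have h3 : p'.2 - q'.2 ≠ 0 := sub_ne_zero.2 h2
      show (q'.1 - p'.1) / (p'.2 - q'.2) = e
      rw [div_eq_iff h3]
      linarith
  have key := Pool.Agent.Helper309.Aff.st_rich (V := V.image S) (Ls := Ls.image T) hx hj (by
    intro L hL
    obtain ⟨l, hlL, rfl⟩ := mem_image.1 hL
    refine (h l hlL).trans ?_
    apply card_le_card_of_injOn S
    · intro p hp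
      have hp' := mem_filter.1 (mem_coe.1 hp)
      refine mem_coe.2 (mem_filter.2 ⟨mem_image_of_mem _ hp'.1, ?_⟩)
      show p.2 = l.1 / (1 + l.1 * e) * (p.1 + e * p.2) + l.2 / (1 + l.1 * e)
      have a1 := hl l hlL
      have h2 := hp'.2
      field_simp
      linarith
    · intro p _ q _ hpq
      exact hSi hpq)
  rw [card_image_of_injective _ hSi, card_image_of_injOn hTi] at key
  exact key

end Pool.Agent.W250.RS
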