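import Pool.Agent.W250.RS.Stm

/-!
# Sum-product for random subsets: assembly (project RS, helper250)
-/

set_option autoImplicit false

open Finset

namespace Pool.Agent.W250.RS

/-- `kA`. -/
def sums {R : Type} [CommRing R] [DecidableEq R] (k : ℕ) (A : Finset R) : Finset R :=
  (Fintype.piFinset (fun _ : Fin k => A)).image (fun x => ∑ j, x j)

/-- `A^k`. -/
def prods {R : Type} [CommRing R] [DecidableEq R] (k : ℕ) (A : Finset R) : Finset R :=
  (Fintype.piFinset (fun _ : Fin k => A)).image (fun x => ∏ j, x j)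

theorem image_tuples {R β : Type} [DecidableEq R] [DecidableEq β] (k N : ℕ) (g : (Fin k → R) → β)
    (f : Fin N → R) :
    (Fintype.piFinset (fun _ : Fin k => (univ.image f : Finset R))).image g =
      (univ : Finset (Fin k → Fin N)).image (fun ι => g (f ∘ ι)) := by
  ext b
  simp only [mem_image, Fintype.mem_piFinset, mem_univ, true_and]
  constructor
  · rintro ⟨x, hx, rfl⟩
    choose ι hι using hx
    refine ⟨ι, ?_⟩
    congr 1
    funext j
    exact hι j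
  · rintro ⟨ι, rfl⟩
    exact ⟨f ∘ ι, fun j => ⟨ι j, rfl⟩, rfl⟩

/-- One operation: from the poor tuples to random subsets. -/
theorem one_op (hMC : S_MC) (hEX : S_EX) (hBD : S_BD) (hSB : S_SB) {R : Type} [DecidableEq R]
    (k : ℕ) (hk : 2 ≤ k) (g : (Fin k → R) → R) (X : Finset R) (N m K : ℕ) (c : ℝ)
    (G : Finset (Fin k → R)) (hN : k ≤ N) (hm : m = N / k) (hc : 0 < c)
    (hc1 : c * (8192 * (k : ℝ) ^ 2 * (2 * k : ℝ) ^ (2 * k)) ≤ 1) (hX : X.Nonempty)
    (hNX : (N : ℝ) ≤ c * X.card) (h2N : 2 * N ≤ X.card)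
    (hG : G ⊆ tup X k) (h1 : ∀ x ∈ G, (G.filter (fun y => g y = g x)).card ≤ K)
    (h2 : ∀ x ∈ G, ∀ y ∈ G, ∀ l, (∀ j, j ≠ l → x j = y j) → g x = g y → x = y)
    (h3 : 2 * m ^ k * K ≤ X.card ^ k) (h4 : 2 * k * m ^ (k - 1) ≤ X.card)
    (h5 : X.card ^ k ≤ 8 * G.card) :
    (((X.powersetCard N).filter (fun A =>
      (((Fintype.piFinset (fun _ : Fin k => A)).image g).card : ℝ) < c * (N : ℝ) ^ k)).card : ℝ) ≤
      Real.exp (-(c * N)) * (X.card.choose N : ℝ) := by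
  have hk0 : (0 : ℝ) < k := by positivity
  have hk1 : 1 ≤ k := by omega
  have hN1 : 1 ≤ N := by omega
  have hN0 : (0 : ℝ) < N := by exact_mod_cast hN1
  have hn0 : (0 : ℝ) < X.card := by exact_mod_cast hX.card_pos
  have hm1 : 1 ≤ m := by
    rw [hm]; exact Nat.div_pos hN (by omega)
  have hmN : k * m ≤ N := by rw [hm]; exact Nat.mul_div_le N k
  have hNm : (N : ℝ) ≤ 2 * k * m := by
    have h : N < k * (m + 1) := by
      rw [hm]
      exact Nat.lt_mul_div_succ N (by omega)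
    have h' : N ≤ 2 * k * m := by nlinarith
    exact_mod_cast h'
  have hex := hEX R R X k m N K G g hX hk1 hmN hG h1 h2 h3 h4
  set F : (Fin N → R) → ℝ := fun f =>
    (((univ : Finset (Fin k → Fin N)).image (fun ι => g (f ∘ ι))).card : ℝ) with hF
  set μ : ℝ := (m : ℝ) ^ k / 16 with hμ
  have hmk : (0 : ℝ) < (m : ℝ) ^ k := by positivity
  have hsum : μ * (X.card : ℝ) ^ N ≤ ∑ f ∈ tup X N, F f := by
    have h5' : (X.card : ℝ) ^ k ≤ 8 * G.card := by exact_mod_cast h5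
    have hXk : (0 : ℝ) < (X.card : ℝ) ^ k := by positivity
    have hXN : (0 : ℝ) < (X.card : ℝ) ^ N := by positivity
    have e1 : (m : ℝ) ^ k * (X.card : ℝ) ^ k * (X.card : ℝ) ^ N ≤
        8 * ((m : ℝ) ^ k * (G.card : ℝ) * (X.card : ℝ) ^ N) := by
      have : (m : ℝ) ^ k * (X.card : ℝ) ^ k * (X.card : ℝ) ^ N ≤
        (m : ℝ) ^ k * (8 * G.card) * (X.card : ℝ) ^ N := by gcongr
      linarith
    have e2 : (X.card : ℝ) ^ k * (μ * (X.card : ℝ) ^ N) ≤
        (X.card : ℝ) ^ k * ∑ f ∈ tup X N, F f := by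
      have : (X.card : ℝ) ^ k * (μ * (X.card : ℝ) ^ N) =
        (m : ℝ) ^ k * (X.card : ℝ) ^ k * (X.card : ℝ) ^ N / 16 := by rw [hμ]; ring
      rw [this]
      linarith [hex, e1]
    exact le_of_mul_le_mul_left e2 hXk
  set D : ℝ := (k : ℝ) * (N : ℝ) ^ (k - 1) with hD
  have hD0 : 0 < D := by positivity
  have hmc := hMC R X hX N F D μ (μ / 2) hN1 hD0 (by positivity)
    (fun f _ i a _ => hBD R R k N g f i a hk1) hsum
  have hthr : c * (N : ℝ) ^ k ≤ μ - μ / 2 := by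
    have h6 : (N : ℝ) ^ k ≤ (2 * k : ℝ) ^ k * (m : ℝ) ^ k := by
      rw [← mul_pow]; exact pow_le_pow_left₀ hN0.le (by linarith) k
    have h7 : c * (32 * (2 * k : ℝ) ^ k) ≤ 1 := by
      refine le_trans ?_ hc1
      gcongr
      · nlinarith [show (1 : ℝ) ≤ k ^ 2 from by
          have : (1 : ℝ) ≤ k := by exact_mod_cast hk1
          nlinarith]
      · have : (1 : ℝ) ≤ k := by exact_mod_cast hk1
        linarith
      · omega
    have h8 : c * (N : ℝ) ^ k ≤ c * ((2 * k : ℝ) ^ k * (m : ℝ) ^ k) := by gcongr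
    have h9 : c * ((2 * k : ℝ) ^ k * (m : ℝ) ^ k) = (c * (32 * (2 * k : ℝ) ^ k)) * ((m : ℝ) ^ k / 32) := by
      ring
    have h10 : (c * (32 * (2 * k : ℝ) ^ k)) * ((m : ℝ) ^ k / 32) ≤ 1 * ((m : ℝ) ^ k / 32) := by
      gcongr
    have h11 : μ - μ / 2 = (m : ℝ) ^ k / 32 := by rw [hμ]; ring
    linarith
  have hexp : 2 * c * N ≤ (μ / 2) ^ 2 / (4 * N * D ^ 2) := by
    have hden : 0 < 4 * (N : ℝ) * D ^ 2 := by positivity
    rw [le_div_iff₀ hden]
    have h6 : (N : ℝ) ^ (2 * k) ≤ (2 * k : ℝ) ^ (2 * k) * ((m : ℝ) ^ k) ^ 2 := by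
      have : (2 * k : ℝ) ^ (2 * k) * ((m : ℝ) ^ k) ^ 2 = (2 * k * m : ℝ) ^ (2 * k) := by
        rw [mul_pow (2 * (k : ℝ)) (m : ℝ) (2 * k), ← pow_mul (m : ℝ) k 2, mul_comm k 2]
      rw [this]
      exact pow_le_pow_left₀ hN0.le hNm _
    have h7 : 2 * c * N * (4 * (N : ℝ) * D ^ 2) = 8 * c * (k : ℝ) ^ 2 * (N : ℝ) ^ (2 * k) := by
      rw [hD]
      have : (N : ℝ) ^ (2 * k) = N * N * ((N : ℝ) ^ (k - 1)) ^ 2 := by
        rw [← pow_mul, ← pow_two, ← pow_add]
        congr 1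
        omega
      rw [this]; ring
    rw [h7]
    have h8 : 8 * c * (k : ℝ) ^ 2 * (N : ℝ) ^ (2 * k) ≤
        8 * c * (k : ℝ) ^ 2 * ((2 * k : ℝ) ^ (2 * k) * ((m : ℝ) ^ k) ^ 2) := by gcongr
    have h9 : 8 * c * (k : ℝ) ^ 2 * ((2 * k : ℝ) ^ (2 * k) * ((m : ℝ) ^ k) ^ 2) =
        (c * (8192 * (k : ℝ) ^ 2 * (2 * k : ℝ) ^ (2 * k))) * (((m : ℝ) ^ k) ^ 2 / 1024) := by ring
    have h10 : (c * (8192 * (k : ℝ) ^ 2 * (2 * k : ℝ) ^ (2 * k))) * (((m : ℝ) ^ k) ^ 2 / 1024) ≤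
        1 * (((m : ℝ) ^ k) ^ 2 / 1024) := by gcongr
    have h11 : (μ / 2) ^ 2 = ((m : ℝ) ^ k) ^ 2 / 1024 := by rw [hμ]; ring
    linarith
  have hbad : (((tup X N).filter (fun f => (((Fintype.piFinset (fun _ : Fin k =>
      (univ.image f : Finset R))).image g).card : ℝ) < c * (N : ℝ) ^ k)).card : ℝ) ≤
      Real.exp (-(2 * c * N)) * (X.card : ℝ) ^ N := by
    refine le_trans ?_ (hmc.trans ?_)
    · refine Nat.cast_le.mpr (card_le_card ?_)
      · intro f hf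
        rw [mem_filter] at hf ⊢
        refine ⟨hf.1, ?_⟩
        have h := hf.2
        rw [image_tuples k N g f] at h
        exact h.le.trans hthr
    · gcongr
  have hsb := hSB R X N (fun A => (((Fintype.piFinset (fun _ : Fin k => A)).image g).card : ℝ) <
    c * (N : ℝ) ^ k) (Real.exp (-(2 * c * N))) h2N (Real.exp_pos _).le hbad
  refine hsb.trans ?_
  rw [← Real.exp_add]
  gcongr
  have : (N : ℝ) ^ 2 / X.card ≤ c * N := by
    rw [div_le_iff₀ hn0]
    nlinarith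
  linarith

/-- For `N < k` there are no bad sets. -/
theorem small_N {R : Type} [DecidableEq R] (k : ℕ) (g : (Fin k → R) → R) (X : Finset R) (N : ℕ)
    (c : ℝ) (hN1 : 1 ≤ N) (hN : N < k) (hc : 0 < c) (hck : c * (k : ℝ) ^ k ≤ 1) :
    (((X.powersetCard N).filter (fun A =>
      (((Fintype.piFinset (fun _ : Fin k => A)).image g).card : ℝ) < c * (N : ℝ) ^ k)).card : ℝ) ≤
      Real.exp (-(c * N)) * (X.card.choose N : ℝ) := by
  have : (X.powersetCard N).filter (fun A =>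
      (((Fintype.piFinset (fun _ : Fin k => A)).image g).card : ℝ) < c * (N : ℝ) ^ k) = ∅ := by
    rw [filter_eq_empty_iff]
    intro A hA
    rw [mem_powersetCard] at hA
    have hne : A.Nonempty := by
      rw [← card_pos]; omega
    have h1 : 1 ≤ ((Fintype.piFinset (fun _ : Fin k => A)).image g).card := by
      rw [Nat.one_le_iff_ne_zero, Ne, card_eq_zero, image_eq_empty, ← Ne, ← nonempty_iff_ne_empty]
      exact Fintype.piFinset_nonempty.mpr fun _ => hne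
    have h2 : (1 : ℝ) ≤ (((Fintype.piFinset (fun _ : Fin k => A)).image g).card : ℝ) := by
      exact_mod_cast h1
    have h3 : c * (N : ℝ) ^ k ≤ c * (k : ℝ) ^ k := by
      have : (N : ℝ) ≤ k := by exact_mod_cast hN.le
      gcongr
    linarith
  rw [this]
  simp only [card_empty, Nat.cast_zero]
  positivity

/-- Existence of the threshold `K`. -/
theorem exists_K (k m n : ℕ) (hm : 1 ≤ m) (hn : 1 ≤ n) (hk : 2 ≤ k)
    (h : (2 : ℝ) ^ 26 * (m : ℝ) ^ (4 * k) ≤ (n : ℝ) ^ 5) (h' : 2 * m ^ k ≤ n ^ k) :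
    ∃ K : ℕ, 2 * m ^ k * K ≤ n ^ k ∧ 2 ^ 17 * n ^ (4 * k - 5) < K ^ 4 := by
  refine ⟨n ^ k / (2 * m ^ k), Nat.mul_div_le _ _, ?_⟩
  set a : ℕ := 2 * m ^ k with ha
  have ha0 : 0 < a := by positivity
  set K : ℕ := n ^ k / a with hK
  have hK1 : 1 ≤ K := Nat.div_pos h' ha0
  have h1 : n ^ k < a * (K + 1) := Nat.lt_mul_div_succ _ ha0
  have h2 : n ^ k < 2 * a * K := by nlinarith
  have h3 : (n ^ k) ^ 4 < (2 * a * K) ^ 4 := Nat.pow_lt_pow_left h2 (by norm_num)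
  have h4 : (2 * a * K) ^ 4 = 2 ^ 8 * m ^ (4 * k) * K ^ 4 := by
    rw [ha, show 4 * k = k * 4 by ring, pow_mul]; ring
  have h5 : 2 ^ 26 * m ^ (4 * k) ≤ n ^ 5 := by exact_mod_cast h
  have h6 : (n ^ k) ^ 4 = n ^ (4 * k - 5) * n ^ 5 := by
    rw [← pow_mul, ← pow_add]; congr 1; omega
  rw [h4, h6] at h3
  by_contra hcon
  push Not at hcon
  have h7 : 2 ^ 8 * m ^ (4 * k) * K ^ 4 ≤ 2 ^ 8 * m ^ (4 * k) * (2 ^ 17 * n ^ (4 * k - 5)) :=
    Nat.mul_le_mul_left _ hcon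
  have h8 : 2 ^ 8 * m ^ (4 * k) * (2 ^ 17 * n ^ (4 * k - 5)) =
      n ^ (4 * k - 5) * (2 ^ 25 * m ^ (4 * k)) := by ring
  have h9 : n ^ (4 * k - 5) * (2 ^ 25 * m ^ (4 * k)) ≤ n ^ (4 * k - 5) * n ^ 5 :=
    Nat.mul_le_mul_left _ (by omega)
  omega

theorem main (hMC : S_MC) (hEX : S_EX) (hEL : S_EL) (hBD : S_BD) (hSB : S_SB) (k : ℕ)
    (hk : 2 ≤ k) : ∃ c : ℝ, 0 < c ∧ ∀ (R : Type) [CommRing R] [DecidableEq R] (φ : R →+* ℝ),
    Function.Injective φ → ∀ (X : Finset R) (N : ℕ), 1 ≤ N → 1 ≤ c * X.card →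
    (N : ℝ) ^ (4 * k) ≤ c * (X.card : ℝ) ^ 5 → (N : ℝ) ^ (k - 1) ≤ c * X.card →
    (((X.powersetCard N).filter (fun A => ((sums k A).card : ℝ) < c * (N : ℝ) ^ k)).card : ℝ) ≤
      Real.exp (-(c * N)) * (X.card.choose N : ℝ) ∨
    (((X.powersetCard N).filter (fun A => ((prods k A).card : ℝ) < c * (N : ℝ) ^ k)).card : ℝ) ≤
      Real.exp (-(c * N)) * (X.card.choose N : ℝ) := by
  have hk1 : (1 : ℝ) ≤ k := by exact_mod_cast (by omega : 1 ≤ k)
  have hk2 : (2 : ℝ) ≤ k := by exact_mod_cast hk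
  set M : ℝ := 2 ^ 26 * (k : ℝ) ^ 2 * (2 * k : ℝ) ^ (2 * k) with hM
  have hp1 : (1 : ℝ) ≤ (2 * k : ℝ) ^ (2 * k) := one_le_pow₀ (by linarith)
  have hk21 : (k : ℝ) ≤ (k : ℝ) ^ 2 := by nlinarith
  have hM0 : 0 < M := by positivity
  refine ⟨1 / M, by positivity, ?_⟩
  intro R _ _ φ hφ X N hN1 hX1 hN4 hNk
  set c : ℝ := 1 / M with hc
  have hc0 : 0 < c := by positivity
  have hcM : c * M = 1 := by rw [hc]; field_simp
  have hkk : (k : ℝ) ^ k ≤ (2 * k : ℝ) ^ (2 * k) := by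
    calc (k : ℝ) ^ k ≤ (2 * k : ℝ) ^ k := by gcongr; linarith
      _ ≤ (2 * k : ℝ) ^ (2 * k) := by
        apply pow_le_pow_right₀ (by linarith); omega
  have hck : c * (k : ℝ) ^ k ≤ 1 := by
    rw [← hcM]
    apply mul_le_mul_of_nonneg_left _ hc0.le
    have hb : (1 : ℝ) ≤ 2 ^ 26 * (k : ℝ) ^ 2 := by nlinarith
    have hb2 : 1 * (2 * k : ℝ) ^ (2 * k) ≤ M := by
      rw [hM]
      exact mul_le_mul_of_nonneg_right hb (by positivity)
    linarith
  by_cases hNk' : N < k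
  · left
    exact small_N k (fun x => ∑ j, x j) X N c hN1 hNk' hc0 hck
  push Not at hNk'
  have hc1 : c * (8192 * (k : ℝ) ^ 2 * (2 * k : ℝ) ^ (2 * k)) ≤ 1 := by
    rw [← hcM]
    apply mul_le_mul_of_nonneg_left _ hc0.le
    rw [hM]
    gcongr
    norm_num
  have hn0 : (0 : ℝ) < X.card := by
    by_contra h
    have : (X.card : ℝ) = 0 := le_antisymm (not_lt.mp h) (Nat.cast_nonneg _)
    rw [this] at hX1
    linarith
  have hX : X.Nonempty := by
    rw [← card_pos]; exact_mod_cast hn0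
  have hn1 : 1 ≤ X.card := hX.card_pos
  have hN0 : (1 : ℝ) ≤ N := by exact_mod_cast hN1
  have hMk : 4 * (k : ℝ) ≤ M := by
    rw [hM]
    have : (k : ℝ) * 1 ≤ (k : ℝ) ^ 2 * (2 * k : ℝ) ^ (2 * k) := by gcongr
    nlinarith
  have hc4k : c * (4 * k) ≤ 1 := by
    rw [← hcM]; exact mul_le_mul_of_nonneg_left hMk hc0.le
  have hnM : M ≤ X.card := by
    have : M * 1 ≤ M * (c * X.card) := by gcongr
    have e : M * (c * X.card) = (c * M) * X.card := by ring
    rw [e, hcM] at this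
    linarith
  have h4k : 4 * k ≤ X.card := by exact_mod_cast hMk.trans hnM
  have h8 : 8 ≤ X.card := by omega
  have hNX : (N : ℝ) ≤ c * X.card := by
    refine le_trans ?_ hNk
    calc (N : ℝ) = (N : ℝ) ^ 1 := (pow_one _).symm
      _ ≤ (N : ℝ) ^ (k - 1) := pow_le_pow_right₀ hN0 (by omega)
  have h2N : 2 * N ≤ X.card := by
    have : 2 * (N : ℝ) ≤ X.card := by
      have : (4 * (k : ℝ)) * N ≤ (4 * k) * (c * X.card) := by gcongr
      have e : (4 * (k : ℝ)) * (c * X.card) = (c * (4 * k)) * X.card := by ring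
      rw [e] at this
      have h' : (c * (4 * k)) * X.card ≤ 1 * X.card := by gcongr
      nlinarith
    exact_mod_cast this
  set m : ℕ := N / k with hm
  have hm1 : 1 ≤ m := Nat.div_pos hNk' (by omega)
  have hmN : m ≤ N := Nat.div_le_self _ _
  have hmN' : (m : ℝ) ≤ N := by exact_mod_cast hmN
  have h4 : 2 * k * m ^ (k - 1) ≤ X.card := by
    have : 2 * (k : ℝ) * (m : ℝ) ^ (k - 1) ≤ X.card := by
      have h1 : 2 * (k : ℝ) * (m : ℝ) ^ (k - 1) ≤ 2 * k * (c * X.card) := by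
        have : (m : ℝ) ^ (k - 1) ≤ c * X.card := le_trans (by gcongr) hNk
        gcongr
      have e : 2 * (k : ℝ) * (c * X.card) = (c * (4 * k)) * X.card / 2 := by ring
      rw [e] at h1
      have h' : (c * (4 * k)) * X.card ≤ 1 * X.card := by gcongr
      nlinarith
    exact_mod_cast this
  have hM26 : (2 : ℝ) ^ 26 ≤ M := by
    rw [hM]
    have : (1 : ℝ) * 1 ≤ (k : ℝ) ^ 2 * (2 * k : ℝ) ^ (2 * k) := by
      have : (1 : ℝ) ≤ (k : ℝ) ^ 2 := by nlinarith
      gcongr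
    nlinarith
  have hc26 : c * 2 ^ 26 ≤ 1 := by
    rw [← hcM]; exact mul_le_mul_of_nonneg_left hM26 hc0.le
  have hK5 : (2 : ℝ) ^ 26 * (m : ℝ) ^ (4 * k) ≤ (X.card : ℝ) ^ 5 := by
    have h1 : (2 : ℝ) ^ 26 * (m : ℝ) ^ (4 * k) ≤ 2 ^ 26 * (c * (X.card : ℝ) ^ 5) := by
      have : (m : ℝ) ^ (4 * k) ≤ c * (X.card : ℝ) ^ 5 := le_trans (by gcongr) hN4
      gcongr
    have e : (2 : ℝ) ^ 26 * (c * (X.card : ℝ) ^ 5) = (c * 2 ^ 26) * (X.card : ℝ) ^ 5 := by ring
    rw [e] at h1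
    have h' : (c * 2 ^ 26) * (X.card : ℝ) ^ 5 ≤ 1 * (X.card : ℝ) ^ 5 := by gcongr
    linarith
  have hmk : 2 * m ^ k ≤ X.card ^ k := by
    have h1 : 2 * m ≤ X.card := by omega
    calc 2 * m ^ k ≤ 2 ^ k * m ^ k := by
          gcongr
          exact le_self_pow₀ (by norm_num) (by omega)
      _ = (2 * m) ^ k := by rw [mul_pow]
      _ ≤ X.card ^ k := Nat.pow_le_pow_left h1 k
  obtain ⟨K, hK1, hK2⟩ := exists_K k m X.card hm1 hn1 hk hK5 hmk
  rcases hEL R φ hφ X k K hk h4k h8 hK2 with h | h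
  · left
    refine one_op hMC hEX hBD hSB k hk (fun x => ∑ j, x j) X N m K c (poorS X k K) hNk' hm hc0 hc1
      hX hNX h2N (filter_subset _ _) ?_ ?_ hK1 h4 h
    · intro x hx
      rw [poorS, mem_filter] at hx
      exact le_trans (card_le_card (filter_subset_filter _ (filter_subset _ _))) hx.2
    · intro x _ y _ l hxy hg
      funext j
      by_cases hj : j = l
      · subst hj
        have h1 := Finset.add_sum_erase univ x (mem_univ j)
        have h2 := Finset.add_sum_erase univ y (mem_univ j)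
        have h3 : ∑ i ∈ univ.erase j, x i = ∑ i ∈ univ.erase j, y i :=
          sum_congr rfl fun i hi => hxy i (ne_of_mem_erase hi)
        have hg' : ∑ i, x i = ∑ i, y i := hg
        rw [← h1, ← h2, h3] at hg'
        exact add_right_cancel hg'
      · exact hxy j hj
  · right
    have hsub : tup (X.erase 0) k ⊆ tup X k :=
      Fintype.piFinset_subset _ _ fun _ => erase_subset _ _
    refine one_op hMC hEX hBD hSB k hk (fun x => ∏ j, x j) X N m K c (poorP (X.erase 0) k K) hNk'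
      hm hc0 hc1 hX hNX h2N ((filter_subset _ _).trans hsub) ?_ ?_ hK1 h4 h
    · intro x hx
      rw [poorP, mem_filter] at hx
      exact le_trans (card_le_card (filter_subset_filter _ (filter_subset _ _))) hx.2
    · intro x hx y _ l hxy hg
      funext j
      by_cases hj : j = l
      · subst hj
        have hx0 : ∀ i, x i ≠ 0 := by
          intro i
          rw [poorP, mem_filter, tup, Fintype.mem_piFinset] at hx
          exact ne_of_mem_erase (hx.1 i)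
        have h1 := Finset.mul_prod_erase univ (fun i => φ (x i)) (mem_univ j)
        have h2 := Finset.mul_prod_erase univ (fun i => φ (y i)) (mem_univ j)
        have h3 : ∏ i ∈ univ.erase j, φ (x i) = ∏ i ∈ univ.erase j, φ (y i) :=
          prod_congr rfl fun i hi => by rw [hxy i (ne_of_mem_erase hi)]
        have hg' : ∏ i, φ (x i) = ∏ i, φ (y i) := by
          rw [← map_prod, ← map_prod]; exact congrArg φ hg
        have h4 : ∏ i ∈ univ.erase j, φ (x i) ≠ 0 :=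
          prod_ne_zero_iff.mpr fun i _ => by
            rw [Ne, ← map_zero φ]; exact fun h => hx0 i (hφ h)
        rw [← h1, ← h2, ← h3] at hg'
        exact hφ (mul_right_cancel₀ h4 hg')
      · exact hxy j hj

end Pool.Agent.W250.RS
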