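import Pool.Agent.W250.RS.Stm

/-!
# Sum-product for random subsets: statements, second round (project RS2, helper250)
-/

set_option autoImplicit false

open Finset

namespace Pool.Agent.W250.RS

/-- C4: coincidences for index tuples which agree exactly off `J`. -/
def S_C4 : Prop := ∀ (α β : Type) [DecidableEq α] [DecidableEq β] (X : Finset α) (k N K : ℕ)
  (G : Finset (Fin k → α)) (g : (Fin k → α) → β) (ι ι' : Fin k → Fin N) (J : Finset (Fin k)),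
  G ⊆ tup X k →
  (∀ x ∈ G, (G.filter (fun y => g y = g x ∧ ∀ i, i ∉ J → y i = x i)).card ≤ K) →
  Function.Injective ι → Function.Injective ι' → (∀ i j, ι i = ι' j → i = j ∧ i ∉ J) →
  (∀ i, i ∉ J → ι i = ι' i) →
  ((tup X N).filter (fun f => f ∘ ι ∈ G ∧ f ∘ ι' ∈ G ∧ g (f ∘ ι') = g (f ∘ ι))).card *
    X.card ^ (k + J.card) ≤ G.card * K * X.card ^ N

/-- EX2: expected number of values of `g` on the `k`-tuples of a random `N`-tuple. -/
def S_EX2 : Prop := ∀ (α β : Type) [DecidableEq α] [DecidableEq β] (X : Finset α) (k m N : ℕ)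
  (K : ℕ → ℕ) (G : Finset (Fin k → α)) (g : (Fin k → α) → β), X.Nonempty → 1 ≤ k → k * m ≤ N →
  G ⊆ tup X k →
  (∀ J : Finset (Fin k), J.Nonempty → ∀ x ∈ G,
    (G.filter (fun y => g y = g x ∧ ∀ i, i ∉ J → y i = x i)).card ≤ K J.card) →
  (∀ j, 1 ≤ j → j ≤ k → 2 ^ k * m ^ j * K j ≤ X.card ^ j) →
  (m : ℝ) ^ k * (G.card : ℝ) * (X.card : ℝ) ^ N ≤ 2 * (X.card : ℝ) ^ k *
    ∑ f ∈ tup X N, (((univ : Finset (Fin k → Fin N)).image (fun ι => g (f ∘ ι))).card : ℝ)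

/-- STG: Szemerédi-Trotter for rich lines and arbitrary point sets. -/
def S_STG : Prop := ∀ (V Ls : Finset (ℝ × ℝ)) (j : ℕ), 2 ≤ j → (∀ l ∈ Ls, l.1 ≠ 0) →
  (∀ l ∈ Ls, j ≤ (V.filter (fun p => p.2 = l.1 * p.1 + l.2)).card) →
  j ^ 3 * Ls.card ≤ 576 * (V.card ^ 2 + j ^ 2 * V.card)

/-- INC: sums and products along one dense hypergraph. -/
def S_INC : Prop := ∀ t q : ℕ, 1 ≤ q → ∃ C : ℕ, 1 ≤ C ∧ ∀ (ι : Type) [Fintype ι] [DecidableEq ι]
  (A : Finset ℝ) (W : Finset (ι → ℝ)), Fintype.card ι = t + 1 → C ≤ A.card → (0 : ℝ) ∉ A →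
  (∀ w ∈ W, ∀ i, w i ∈ A) → A.card ^ (t + 1) ≤ q * W.card →
  A.card ^ (3 * 2 ^ t - 1) ≤ C * ((W.image (fun x => ∑ i, x i)).card *
    (W.image (fun x => ∏ i, x i)).card) ^ (2 ^ t)

/-- MIX: partial sums and partial products along one dense hypergraph. -/
def S_MIX : Prop := ∀ k q : ℕ, 1 ≤ q → ∃ C : ℕ, 1 ≤ C ∧ ∀ (R : Type) [CommRing R] [DecidableEq R]
  (φ : R →+* ℝ), Function.Injective φ → ∀ (X : Finset R) (W : Finset (Fin k → R))
  (J J' : Finset (Fin k)) (t : ℕ), (J ∩ J').card = t + 1 → C ≤ X.card → (0 : R) ∉ X →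
  W ⊆ tup X k → X.card ^ k ≤ q * W.card →
  X.card ^ (3 * 2 ^ t - 1) ≤ C * ((W.image (fun x => ∑ i ∈ J, x i)).card *
    (W.image (fun x => ∏ i ∈ J', x i)).card) ^ (2 ^ t)

/-- The tuples all of whose partial sums have few representations. -/
def poorAS {R : Type} [CommRing R] [DecidableEq R] (X : Finset R) (k : ℕ) (K : ℕ → ℕ) :
    Finset (Fin k → R) :=
  (tup X k).filter (fun x => ∀ J : Finset (Fin k), J.Nonempty →
    ((tup X k).filter (fun y => ∑ i, y i = ∑ i, x i ∧ ∀ i, i ∉ J → y i = x i)).card ≤ K J.card)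

/-- The tuples all of whose partial products have few representations. -/
def poorAP {R : Type} [CommRing R] [DecidableEq R] (X : Finset R) (k : ℕ) (K : ℕ → ℕ) :
    Finset (Fin k → R) :=
  (tup X k).filter (fun x => ∀ J : Finset (Fin k), J.Nonempty →
    ((tup X k).filter (fun y => ∏ i, y i = ∏ i, x i ∧ ∀ i, i ∉ J → y i = x i)).card ≤ K J.card)

/-- EL3: the dichotomy. -/
def S_EL3 : Prop := ∀ k : ℕ, 2 ≤ k → ∃ C : ℕ, 1 ≤ C ∧ ∀ (R : Type) [CommRing R] [DecidableEq R]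
  (φ : R →+* ℝ), Function.Injective φ → ∀ (X : Finset R) (m : ℕ), 1 ≤ m → C ≤ X.card →
  C * m ^ (k * 2 ^ k) ≤ X.card ^ (3 * 2 ^ (k - 1) - 1) →
  X.card ^ k ≤ C * (poorAS X k (fun j => X.card ^ j / (2 ^ k * m ^ j))).card ∨
  X.card ^ k ≤ C * (poorAP (X.erase 0) k (fun j => X.card ^ j / (2 ^ k * m ^ j))).card

/-- NUM: the inequality of exponents. -/
def S_NUM : Prop := ∀ k t : ℕ, 2 ≤ k → t + 1 ≤ k →
  (3 * 2 ^ (k - 1) - 1) * (k + t + 1) * 2 ^ t ≤ (3 * 2 ^ t - 1) * (k * 2 ^ k)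

end Pool.Agent.W250.RS
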