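import Pool.Agent.W250.RS.One2
import Pool.Agent.W250.RS.Stm2

/-!
# Sum-product for random subsets: assembly, full range (project RS2, helper250)
-/

set_option autoImplicit false

open Finset

namespace Pool.Agent.W250.RS

theorem main3_aux (hMC : S_MC) (hBD : S_BD) (hSB : S_SB) (hEX : S_EX2) (hEL : S_EL3) (k : ℕ)
    (hk : 2 ≤ k) : ∃ c : ℝ, 0 < c ∧ c ≤ 1 ∧ ∀ (R : Type) [CommRing R] [DecidableEq R]
    (φ : R →+* ℝ), Function.Injective φ → ∀ (X : Finset R) (N : ℕ), 1 ≤ N → 1 ≤ c * X.card →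
    (N : ℝ) ^ (k * 2 ^ k) ≤ c * (X.card : ℝ) ^ (3 * 2 ^ (k - 1) - 1) → (N : ℝ) ≤ c * X.card →
    (((X.powersetCard N).filter (fun A => ((sums k A).card : ℝ) < c * (N : ℝ) ^ k)).card : ℝ) ≤
      Real.exp (-(c * N)) * (X.card.choose N : ℝ) ∨
    (((X.powersetCard N).filter (fun A => ((prods k A).card : ℝ) < c * (N : ℝ) ^ k)).card : ℝ) ≤
      Real.exp (-(c * N)) * (X.card.choose N : ℝ) := by
  obtain ⟨C, hC, hd⟩ := hEL k hk
  have hk1 : (1 : ℝ) ≤ k := by exact_mod_cast (by omega : 1 ≤ k)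
  have hC1 : (1 : ℝ) ≤ C := by exact_mod_cast hC
  set M : ℝ := 128 * (C : ℝ) ^ 2 * (k : ℝ) ^ 2 * (2 * k : ℝ) ^ (2 * k) with hM
  have hp1 : (1 : ℝ) ≤ (2 * k : ℝ) ^ (2 * k) := one_le_pow₀ (by linarith)
  have hk21 : (1 : ℝ) ≤ (k : ℝ) ^ 2 := by nlinarith
  have hC21 : (C : ℝ) ≤ (C : ℝ) ^ 2 := by nlinarith
  have hM0 : 0 < M := by positivity
  have hb0 : (1 : ℝ) ≤ 128 * (C : ℝ) ^ 2 * (k : ℝ) ^ 2 := by
    have : (1 : ℝ) * 1 ≤ (C : ℝ) ^ 2 * (k : ℝ) ^ 2 := by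
      apply mul_le_mul (by linarith) hk21 (by norm_num) (by positivity)
    nlinarith
  have hMp : (2 * k : ℝ) ^ (2 * k) ≤ M := by
    rw [hM]
    have := mul_le_mul_of_nonneg_right hb0 (by positivity : (0 : ℝ) ≤ (2 * k : ℝ) ^ (2 * k))
    linarith
  have hMC' : (C : ℝ) ≤ M := by
    rw [hM]
    have h1 : (C : ℝ) * 1 ≤ (C : ℝ) ^ 2 * (k : ℝ) ^ 2 :=
      mul_le_mul hC21 hk21 (by norm_num) (by positivity)
    have h2 : (128 * (C : ℝ) ^ 2 * (k : ℝ) ^ 2) * 1 ≤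
        (128 * (C : ℝ) ^ 2 * (k : ℝ) ^ 2) * (2 * k : ℝ) ^ (2 * k) := by gcongr
    nlinarith
  have hM1 : 1 ≤ M := le_trans hC1 hMC'
  have hM2 : 2 ≤ M := by
    have h2 : (2 * (k : ℝ)) ^ 1 ≤ (2 * k : ℝ) ^ (2 * k) :=
      pow_le_pow_right₀ (by linarith) (by omega)
    rw [pow_one] at h2
    linarith
  refine ⟨1 / M, by positivity, ?_, ?_⟩
  · rw [div_le_one hM0]; exact hM1
  intro R _ _ φ hφ X N hN1 hX1 hN4 hNX
  set c : ℝ := 1 / M with hc
  have hc0 : 0 < c := by positivity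
  have hcM : c * M = 1 := by rw [hc]; field_simp
  have hkk : (k : ℝ) ^ k ≤ (2 * k : ℝ) ^ (2 * k) := by
    calc (k : ℝ) ^ k ≤ (2 * k : ℝ) ^ k := by gcongr; linarith
      _ ≤ (2 * k : ℝ) ^ (2 * k) := by
        apply pow_le_pow_right₀ (by linarith); omega
  have hck : c * (k : ℝ) ^ k ≤ 1 := by
    rw [← hcM]
    exact mul_le_mul_of_nonneg_left (hkk.trans hMp) hc0.le
  by_cases hNk' : N < k
  · left
    exact small_N k (fun x => ∑ j, x j) X N c hN1 hNk' hc0 hck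
  push Not at hNk'
  have hc1 : c * (128 * (C : ℝ) ^ 2 * (k : ℝ) ^ 2 * (2 * k : ℝ) ^ (2 * k)) ≤ 1 := hcM.le
  have hn0 : (0 : ℝ) < X.card := by
    by_contra h
    have : (X.card : ℝ) = 0 := le_antisymm (not_lt.mp h) (Nat.cast_nonneg _)
    rw [this] at hX1
    linarith
  have hX : X.Nonempty := by
    rw [← card_pos]; exact_mod_cast hn0
  have hnM : M ≤ X.card := by
    have : M * 1 ≤ M * (c * X.card) := by gcongr
    have e : M * (c * X.card) = (c * M) * X.card := by ring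
    rw [e, hcM] at this
    linarith
  have hCn : C ≤ X.card := by exact_mod_cast hMC'.trans hnM
  have h2N : 2 * N ≤ X.card := by
    have : 2 * (N : ℝ) ≤ X.card := by
      have h1 : M * (N : ℝ) ≤ M * (c * X.card) := by gcongr
      have e : M * (c * X.card) = (c * M) * X.card := by ring
      rw [e, hcM] at h1
      have h2 : 2 * (N : ℝ) ≤ M * N := by gcongr
      linarith
    exact_mod_cast this
  set m : ℕ := N / k with hm
  have hm1 : 1 ≤ m := Nat.div_pos hNk' (by omega)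
  have hmN : m ≤ N := Nat.div_le_self _ _
  have hmN' : (m : ℝ) ≤ N := by exact_mod_cast hmN
  have hkm : k * m ≤ N := Nat.mul_div_le N k
  have hcC : c * C ≤ 1 := by
    rw [← hcM]; exact mul_le_mul_of_nonneg_left hMC' hc0.le
  have hK5 : C * m ^ (k * 2 ^ k) ≤ X.card ^ (3 * 2 ^ (k - 1) - 1) := by
    have h0 : (C : ℝ) * (m : ℝ) ^ (k * 2 ^ k) ≤ (X.card : ℝ) ^ (3 * 2 ^ (k - 1) - 1) := by
      have h1 : (C : ℝ) * (m : ℝ) ^ (k * 2 ^ k) ≤
          C * (c * (X.card : ℝ) ^ (3 * 2 ^ (k - 1) - 1)) := by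
        have : (m : ℝ) ^ (k * 2 ^ k) ≤ c * (X.card : ℝ) ^ (3 * 2 ^ (k - 1) - 1) :=
          le_trans (by gcongr) hN4
        gcongr
      have e : (C : ℝ) * (c * (X.card : ℝ) ^ (3 * 2 ^ (k - 1) - 1)) =
          (c * C) * (X.card : ℝ) ^ (3 * 2 ^ (k - 1) - 1) := by ring
      rw [e] at h1
      have h' : (c * C) * (X.card : ℝ) ^ (3 * 2 ^ (k - 1) - 1) ≤
          1 * (X.card : ℝ) ^ (3 * 2 ^ (k - 1) - 1) := by gcongr
      linarith
    exact_mod_cast h0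
  have hKj : ∀ j, 1 ≤ j → j ≤ k →
      2 ^ k * m ^ j * (fun j => X.card ^ j / (2 ^ k * m ^ j)) j ≤ X.card ^ j :=
    fun j _ _ => Nat.mul_div_le _ _
  rcases hd R φ hφ X m hm1 hCn hK5 with h | h
  · left
    have hex := hEX R R X k m N (fun j => X.card ^ j / (2 ^ k * m ^ j))
      (poorAS X k (fun j => X.card ^ j / (2 ^ k * m ^ j))) (fun x => ∑ j, x j) hX (by omega) hkm
      (filter_subset _ _) (fun J hJ x hx => by
        rw [poorAS, mem_filter] at hx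
        exact le_trans (card_le_card (filter_subset_filter _ (filter_subset _ _))) (hx.2 J hJ)) hKj
    exact one_op2 hMC hBD hSB k C hk hC (fun x => ∑ j, x j) X N m c
      (poorAS X k (fun j => X.card ^ j / (2 ^ k * m ^ j))) hNk' hm hc0 hc1 hX hNX h2N hex h
  · right
    have hsub : tup (X.erase 0) k ⊆ tup X k :=
      Fintype.piFinset_subset _ _ fun _ => erase_subset _ _
    have hex := hEX R R X k m N (fun j => X.card ^ j / (2 ^ k * m ^ j))
      (poorAP (X.erase 0) k (fun j => X.card ^ j / (2 ^ k * m ^ j))) (fun x => ∏ j, x j) hX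
      (by omega) hkm ((filter_subset _ _).trans hsub) (fun J hJ x hx => by
        rw [poorAP, mem_filter] at hx
        exact le_trans (card_le_card (filter_subset_filter _ (filter_subset _ _))) (hx.2 J hJ)) hKj
    exact one_op2 hMC hBD hSB k C hk hC (fun x => ∏ j, x j) X N m c
      (poorAP (X.erase 0) k (fun j => X.card ^ j / (2 ^ k * m ^ j))) hNk' hm hc0 hc1 hX hNX h2N
      hex h

theorem main3 (hMC : S_MC) (hBD : S_BD) (hSB : S_SB) (hEX : S_EX2) (hEL : S_EL3) (k : ℕ)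
    (hk : 2 ≤ k) : ∃ c : ℝ, 0 < c ∧ ∀ (R : Type) [CommRing R] [DecidableEq R]
    (φ : R →+* ℝ), Function.Injective φ → ∀ (X : Finset R) (N : ℕ), 1 ≤ N → 1 ≤ c * X.card →
    (N : ℝ) ^ (k * 2 ^ k) ≤ c * (X.card : ℝ) ^ (3 * 2 ^ (k - 1) - 1) →
    (((X.powersetCard N).filter (fun A => ((sums k A).card : ℝ) < c * (N : ℝ) ^ k)).card : ℝ) ≤
      Real.exp (-(c * N)) * (X.card.choose N : ℝ) ∨
    (((X.powersetCard N).filter (fun A => ((prods k A).card : ℝ) < c * (N : ℝ) ^ k)).card : ℝ) ≤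
      Real.exp (-(c * N)) * (X.card.choose N : ℝ) := by
  obtain ⟨c, hc0, hc1, h⟩ := main3_aux hMC hBD hSB hEX hEL k hk
  have hpos : k * 2 ^ k ≠ 0 := by positivity
  have hcc : c ^ (k * 2 ^ k) ≤ c := pow_le_of_le_one hc0.le hc1 hpos
  have hcp : 0 < c ^ (k * 2 ^ k) := by positivity
  refine ⟨c ^ (k * 2 ^ k), hcp, ?_⟩
  intro R _ _ φ hφ X N hN1 hX1 hN4
  have hn1 : (1 : ℝ) ≤ X.card := by
    have h1 : c ^ (k * 2 ^ k) * (X.card : ℝ) ≤ 1 * X.card := by gcongr; linarith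
    linarith
  have hee : 3 * 2 ^ (k - 1) - 1 ≤ k * 2 ^ k := by
    obtain ⟨j, rfl⟩ : ∃ j, k = j + 1 := ⟨k - 1, by omega⟩
    rw [Nat.add_sub_cancel]
    have h1 : 2 * 2 ^ (j + 1) ≤ (j + 1) * 2 ^ (j + 1) := Nat.mul_le_mul_right _ (by omega)
    have h2 : 2 ^ (j + 1) = 2 * 2 ^ j := by rw [pow_succ]; ring
    omega
  have hNX : (N : ℝ) ≤ c * X.card := by
    have h1 : (N : ℝ) ^ (k * 2 ^ k) ≤ (c * X.card) ^ (k * 2 ^ k) := by
      rw [mul_pow]
      refine hN4.trans ?_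
      gcongr
    exact le_of_pow_le_pow_left₀ hpos (by positivity) h1
  have hX1' : 1 ≤ c * X.card := hX1.trans (by gcongr)
  have hN4' : (N : ℝ) ^ (k * 2 ^ k) ≤ c * (X.card : ℝ) ^ (3 * 2 ^ (k - 1) - 1) :=
    hN4.trans (by gcongr)
  have hexp : Real.exp (-(c * N)) ≤ Real.exp (-(c ^ (k * 2 ^ k) * N)) := by
    apply Real.exp_le_exp.mpr
    have : c ^ (k * 2 ^ k) * (N : ℝ) ≤ c * N := by gcongr
    linarith
  have key : ∀ (s : Finset R → ℕ),
      (((X.powersetCard N).filter (fun A => ((s A : ℕ) : ℝ) < c * (N : ℝ) ^ k)).card : ℝ) ≤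
        Real.exp (-(c * N)) * (X.card.choose N : ℝ) →
      (((X.powersetCard N).filter
        (fun A => ((s A : ℕ) : ℝ) < c ^ (k * 2 ^ k) * (N : ℝ) ^ k)).card : ℝ) ≤
        Real.exp (-(c ^ (k * 2 ^ k) * N)) * (X.card.choose N : ℝ) := by
    intro s hs
    have h1 : (((X.powersetCard N).filter
        (fun A => ((s A : ℕ) : ℝ) < c ^ (k * 2 ^ k) * (N : ℝ) ^ k)).card : ℝ) ≤
        (((X.powersetCard N).filter (fun A => ((s A : ℕ) : ℝ) < c * (N : ℝ) ^ k)).card : ℝ) := by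
      refine Nat.cast_le.mpr (card_le_card ?_)
      intro A hA
      rw [mem_filter] at hA ⊢
      refine ⟨hA.1, lt_of_lt_of_le hA.2 ?_⟩
      gcongr
    refine h1.trans (hs.trans ?_)
    gcongr
  rcases h R φ hφ X N hN1 hX1' hN4' hNX with h | h
  · left; exact key (fun A => (sums k A).card) h
  · right; exact key (fun A => (prods k A).card) h

end Pool.Agent.W250.RS
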