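import Pool.Agent.W250.RS.Main

/-!
# One operation, with a general proportion (project RS, helper250)
-/

set_option autoImplicit false

open Finset

namespace Pool.Agent.W250.RS

/-- One operation: from the poor tuples to random subsets. -/
theorem one_op2 (hMC : S_MC) (hBD : S_BD) (hSB : S_SB) {R : Type} [DecidableEq R]
    (k E : ℕ) (hk : 2 ≤ k) (hE : 1 ≤ E) (g : (Fin k → R) → R) (X : Finset R) (N m : ℕ) (c : ℝ)
    (G : Finset (Fin k → R)) (hN : k ≤ N) (hm : m = N / k) (hc : 0 < c)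
    (hc1 : c * (128 * (E : ℝ) ^ 2 * (k : ℝ) ^ 2 * (2 * k : ℝ) ^ (2 * k)) ≤ 1) (hX : X.Nonempty)
    (hNX : (N : ℝ) ≤ c * X.card) (h2N : 2 * N ≤ X.card)
    (hex : (m : ℝ) ^ k * (G.card : ℝ) * (X.card : ℝ) ^ N ≤ 2 * (X.card : ℝ) ^ k *
      ∑ f ∈ tup X N, (((univ : Finset (Fin k → Fin N)).image (fun ι => g (f ∘ ι))).card : ℝ))
    (h5 : X.card ^ k ≤ E * G.card) :
    (((X.powersetCard N).filter (fun A =>
      (((Fintype.piFinset (fun _ : Fin k => A)).image g).card : ℝ) < c * (N : ℝ) ^ k)).card : ℝ) ≤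
      Real.exp (-(c * N)) * (X.card.choose N : ℝ) := by
  have hk0 : (0 : ℝ) < k := by positivity
  have hk1 : 1 ≤ k := by omega
  have hN1 : 1 ≤ N := by omega
  have hN0 : (0 : ℝ) < N := by exact_mod_cast hN1
  have hn0 : (0 : ℝ) < X.card := by exact_mod_cast hX.card_pos
  have hm1 : 1 ≤ m := by
    rw [hm]; exact Nat.div_pos hN (by omega)
  have hNm : (N : ℝ) ≤ 2 * k * m := by
    have h : N < k * (m + 1) := by
      rw [hm]
      exact Nat.lt_mul_div_succ N (by omega)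
    have h' : N ≤ 2 * k * m := by nlinarith
    exact_mod_cast h'
  set F : (Fin N → R) → ℝ := fun f =>
    (((univ : Finset (Fin k → Fin N)).image (fun ι => g (f ∘ ι))).card : ℝ) with hF
  have hE1 : (1 : ℝ) ≤ E := by exact_mod_cast hE
  have hE0 : (0 : ℝ) < E := by linarith
  set μ : ℝ := (m : ℝ) ^ k / (2 * E) with hμ
  have hmk : (0 : ℝ) < (m : ℝ) ^ k := by positivity
  have hsum : μ * (X.card : ℝ) ^ N ≤ ∑ f ∈ tup X N, F f := by
    have h5' : (X.card : ℝ) ^ k ≤ E * G.card := by exact_mod_cast h5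
    have hXk : (0 : ℝ) < (X.card : ℝ) ^ k := by positivity
    have hXN : (0 : ℝ) < (X.card : ℝ) ^ N := by positivity
    have e1 : (m : ℝ) ^ k * (X.card : ℝ) ^ k * (X.card : ℝ) ^ N ≤
        E * ((m : ℝ) ^ k * (G.card : ℝ) * (X.card : ℝ) ^ N) := by
      have : (m : ℝ) ^ k * (X.card : ℝ) ^ k * (X.card : ℝ) ^ N ≤
        (m : ℝ) ^ k * (E * G.card) * (X.card : ℝ) ^ N := by gcongr
      linarith
    have e2 : (X.card : ℝ) ^ k * (μ * (X.card : ℝ) ^ N) ≤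
        (X.card : ℝ) ^ k * ∑ f ∈ tup X N, F f := by
      have : (X.card : ℝ) ^ k * (μ * (X.card : ℝ) ^ N) =
        (m : ℝ) ^ k * (X.card : ℝ) ^ k * (X.card : ℝ) ^ N / (2 * E) := by rw [hμ]; ring
      rw [this, div_le_iff₀ (by positivity)]
      have h9 := mul_le_mul_of_nonneg_left hex hE0.le
      linarith [h9, e1]
    exact le_of_mul_le_mul_left e2 hXk
  set D : ℝ := (k : ℝ) * (N : ℝ) ^ (k - 1) with hD
  have hD0 : 0 < D := by positivity
  have hmc := hMC R X hX N F D μ (μ / 2) hN1 hD0 (by positivity)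
    (fun f _ i a _ => hBD R R k N g f i a hk1) hsum
  have hthr : c * (N : ℝ) ^ k ≤ μ - μ / 2 := by
    have h6 : (N : ℝ) ^ k ≤ (2 * k : ℝ) ^ k * (m : ℝ) ^ k := by
      rw [← mul_pow]; exact pow_le_pow_left₀ hN0.le (by linarith) k
    have h7 : c * (4 * E * (2 * k : ℝ) ^ k) ≤ 1 := by
      refine le_trans ?_ hc1
      have hk1' : (1 : ℝ) ≤ k := by exact_mod_cast hk1
      have hk2' : (1 : ℝ) ≤ (k : ℝ) ^ 2 := by nlinarith
      have hE2' : (E : ℝ) ≤ (E : ℝ) ^ 2 := by nlinarith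
      have hpp : (2 * k : ℝ) ^ k ≤ (2 * k : ℝ) ^ (2 * k) :=
        pow_le_pow_right₀ (by linarith) (by omega)
      have e1 : 4 * (E : ℝ) ≤ 128 * (E : ℝ) ^ 2 * (k : ℝ) ^ 2 := by
        have : (E : ℝ) ^ 2 * 1 ≤ (E : ℝ) ^ 2 * (k : ℝ) ^ 2 := by gcongr
        nlinarith
      have e2 : 4 * (E : ℝ) * (2 * k : ℝ) ^ k ≤
          (128 * (E : ℝ) ^ 2 * (k : ℝ) ^ 2) * (2 * k : ℝ) ^ (2 * k) :=
        mul_le_mul e1 hpp (by positivity) (by positivity)
      exact mul_le_mul_of_nonneg_left e2 hc.le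
    have h8 : c * (N : ℝ) ^ k ≤ c * ((2 * k : ℝ) ^ k * (m : ℝ) ^ k) := by gcongr
    have h9 : c * ((2 * k : ℝ) ^ k * (m : ℝ) ^ k) =
        (c * (4 * E * (2 * k : ℝ) ^ k)) * ((m : ℝ) ^ k / (4 * E)) := by
      field_simp
    have h10 : (c * (4 * E * (2 * k : ℝ) ^ k)) * ((m : ℝ) ^ k / (4 * E)) ≤
        1 * ((m : ℝ) ^ k / (4 * E)) := by
      gcongr
    have h11 : μ - μ / 2 = (m : ℝ) ^ k / (4 * E) := by rw [hμ]; field_simp; ring
    linarith
  have hexp : 2 * c * N ≤ (μ / 2) ^ 2 / (4 * N * D ^ 2) := by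
    have hden : 0 < 4 * (N : ℝ) * D ^ 2 := by positivity
    rw [le_div_iff₀ hden]
    have h6 : (N : ℝ) ^ (2 * k) ≤ (2 * k : ℝ) ^ (2 * k) * ((m : ℝ) ^ k) ^ 2 := by
      have : (2 * k : ℝ) ^ (2 * k) * ((m : ℝ) ^ k) ^ 2 = (2 * k * m : ℝ) ^ (2 * k) := by
        rw [mul_pow (2 * (k : ℝ)) (m : ℝ) (2 * k), ← pow_mul (m : ℝ) k 2, mul_comm k 2]
      rw [this]
      exact pow_le_pow_left₀ hN0.le hNm _
    have h7 : 2 * c * N * (4 * (N : ℝ) * D ^ 2) = 8 * c * (k : ℝ) ^ 2 * (N : ℝ) ^ (2 * k) := by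
      rw [hD]
      have : (N : ℝ) ^ (2 * k) = N * N * ((N : ℝ) ^ (k - 1)) ^ 2 := by
        rw [← pow_mul, ← pow_two, ← pow_add]
        congr 1
        omega
      rw [this]; ring
    rw [h7]
    have h8 : 8 * c * (k : ℝ) ^ 2 * (N : ℝ) ^ (2 * k) ≤
        8 * c * (k : ℝ) ^ 2 * ((2 * k : ℝ) ^ (2 * k) * ((m : ℝ) ^ k) ^ 2) := by gcongr
    have h9 : 8 * c * (k : ℝ) ^ 2 * ((2 * k : ℝ) ^ (2 * k) * ((m : ℝ) ^ k) ^ 2) =
        (c * (128 * (E : ℝ) ^ 2 * (k : ℝ) ^ 2 * (2 * k : ℝ) ^ (2 * k))) *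
          (((m : ℝ) ^ k) ^ 2 / (16 * (E : ℝ) ^ 2)) := by
      field_simp
      ring
    have h10 : (c * (128 * (E : ℝ) ^ 2 * (k : ℝ) ^ 2 * (2 * k : ℝ) ^ (2 * k))) *
          (((m : ℝ) ^ k) ^ 2 / (16 * (E : ℝ) ^ 2)) ≤
        1 * (((m : ℝ) ^ k) ^ 2 / (16 * (E : ℝ) ^ 2)) := by gcongr
    have h11 : (μ / 2) ^ 2 = ((m : ℝ) ^ k) ^ 2 / (16 * (E : ℝ) ^ 2) := by
      rw [hμ]; field_simp; ring
    linarith
  have hbad : (((tup X N).filter (fun f => (((Fintype.piFinset (fun _ : Fin k =>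
      (univ.image f : Finset R))).image g).card : ℝ) < c * (N : ℝ) ^ k)).card : ℝ) ≤
      Real.exp (-(2 * c * N)) * (X.card : ℝ) ^ N := by
    refine le_trans ?_ (hmc.trans ?_)
    · refine Nat.cast_le.mpr (card_le_card ?_)
      · intro f hf
        rw [mem_filter] at hf ⊢
        refine ⟨hf.1, ?_⟩
        have h := hf.2
        rw [image_tuples k N g f] at h
        exact h.le.trans hthr
    · gcongr
  have hsb := hSB R X N (fun A => (((Fintype.piFinset (fun _ : Fin k => A)).image g).card : ℝ) <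
    c * (N : ℝ) ^ k) (Real.exp (-(2 * c * N))) h2N (Real.exp_pos _).le hbad
  refine hsb.trans ?_
  rw [← Real.exp_add]
  gcongr
  have : (N : ℝ) ^ 2 / X.card ≤ c * N := by
    rw [div_le_iff₀ hn0]
    nlinarith
  linarith


end Pool.Agent.W250.RS
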