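import Mathlib

/-!
# Sum-product for random subsets: statements of the parts (project RS, helper250)
-/

set_option autoImplicit false

open Finset

namespace Pool.Agent.W250.RS

/-- `k`-tuples with entries in `X`. -/
def tup {α : Type} (X : Finset α) (k : ℕ) : Finset (Fin k → α) := Fintype.piFinset fun _ => X

/-- MC: bounded differences (McDiarmid, with a weaker constant), lower tail. -/
def S_MC : Prop := ∀ (α : Type) [DecidableEq α] (X : Finset α), X.Nonempty →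
  ∀ (N : ℕ) (F : (Fin N → α) → ℝ) (D μ t : ℝ), 1 ≤ N → 0 < D → 0 ≤ t →
  (∀ f ∈ tup X N, ∀ i, ∀ a ∈ X, |F (Function.update f i a) - F f| ≤ D) →
  μ * (X.card : ℝ) ^ N ≤ ∑ f ∈ tup X N, F f →
  (((tup X N).filter (fun f => F f ≤ μ - t)).card : ℝ) ≤
    Real.exp (-(t ^ 2 / (4 * N * D ^ 2))) * (X.card : ℝ) ^ N

/-- EX: expected number of values of `g` on the `k`-tuples of a random `N`-tuple. -/
def S_EX : Prop := ∀ (α β : Type) [DecidableEq α] [DecidableEq β] (X : Finset α) (k m N K : ℕ)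
  (G : Finset (Fin k → α)) (g : (Fin k → α) → β), X.Nonempty → 1 ≤ k → k * m ≤ N →
  G ⊆ tup X k → (∀ x ∈ G, (G.filter (fun y => g y = g x)).card ≤ K) →
  (∀ x ∈ G, ∀ y ∈ G, ∀ l, (∀ j, j ≠ l → x j = y j) → g x = g y → x = y) →
  2 * m ^ k * K ≤ X.card ^ k → 2 * k * m ^ (k - 1) ≤ X.card →
  (m : ℝ) ^ k * (G.card : ℝ) * (X.card : ℝ) ^ N ≤ 2 * (X.card : ℝ) ^ k *
    ∑ f ∈ tup X N, (((univ : Finset (Fin k → Fin N)).image (fun ι => g (f ∘ ι))).card : ℝ)

/-- C1: the number of `f` with `f ∘ ι` in `G`. -/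
def S_C1 : Prop := ∀ (α : Type) [DecidableEq α] (X : Finset α) (k N : ℕ)
  (G : Finset (Fin k → α)) (ι : Fin k → Fin N), G ⊆ tup X k → Function.Injective ι →
  ((tup X N).filter (fun f => f ∘ ι ∈ G)).card * X.card ^ k = G.card * X.card ^ N

/-- C2: coincidences for disjoint index tuples. -/
def S_C2 : Prop := ∀ (α β : Type) [DecidableEq α] [DecidableEq β] (X : Finset α) (k N K : ℕ)
  (G : Finset (Fin k → α)) (g : (Fin k → α) → β) (ι ι' : Fin k → Fin N), G ⊆ tup X k →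
  (∀ x ∈ G, (G.filter (fun y => g y = g x)).card ≤ K) →
  Function.Injective ι → Function.Injective ι' → (∀ i j, ι i ≠ ι' j) →
  ((tup X N).filter (fun f => f ∘ ι ∈ G ∧ f ∘ ι' ∈ G ∧ g (f ∘ ι') = g (f ∘ ι))).card *
    X.card ^ (2 * k) ≤ G.card * K * X.card ^ N

/-- C3: coincidences for index tuples which differ at `l`. -/
def S_C3 : Prop := ∀ (α β : Type) [DecidableEq α] [DecidableEq β] (X : Finset α) (k N : ℕ)
  (G : Finset (Fin k → α)) (g : (Fin k → α) → β) (ι ι' : Fin k → Fin N) (l : Fin k),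
  G ⊆ tup X k →
  (∀ x ∈ G, ∀ y ∈ G, ∀ l, (∀ j, j ≠ l → x j = y j) → g x = g y → x = y) →
  Function.Injective ι → Function.Injective ι' → (∀ i, ι i ≠ ι' l) →
  ((tup X N).filter (fun f => f ∘ ι ∈ G ∧ f ∘ ι' ∈ G ∧ g (f ∘ ι') = g (f ∘ ι))).card *
    X.card ^ (k + 1) ≤ G.card * X.card ^ N

/-- E1: the incidence part of Elekes' argument. -/
def S_E1 : Prop := ∀ (A P Q : Finset ℝ) (σ π : ℝ) (W : Finset (ℝ × ℝ × ℝ)), π ≠ 0 →
  8 ≤ A.card → A.card ^ 3 ≤ 2 * W.card →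
  (∀ w ∈ W, w.1 ∈ A ∧ w.2.1 ∈ A ∧ w.2.2 ∈ A ∧ w.2.2 ≠ 0 ∧ w.1 + w.2.1 + σ ∈ P ∧
    w.1 * w.2.2 * π ∈ Q) →
  A.card ^ 5 ≤ 2 ^ 17 * P.card ^ 2 * Q.card ^ 2

/-- The tuples with at most `K` representations of their sum. -/
def poorS {R : Type} [CommRing R] [DecidableEq R] (X : Finset R) (k K : ℕ) :
    Finset (Fin k → R) :=
  (tup X k).filter (fun x => ((tup X k).filter (fun y => ∑ j, y j = ∑ j, x j)).card ≤ K)

/-- The tuples with at most `K` representations of their product. -/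
def poorP {R : Type} [CommRing R] [DecidableEq R] (X : Finset R) (k K : ℕ) :
    Finset (Fin k → R) :=
  (tup X k).filter (fun x => ((tup X k).filter (fun y => ∏ j, y j = ∏ j, x j)).card ≤ K)

/-- EL: Elekes' argument along dense hypergraphs. -/
def S_EL : Prop := ∀ (R : Type) [CommRing R] [DecidableEq R] (φ : R →+* ℝ),
  Function.Injective φ → ∀ (X : Finset R) (k K : ℕ), 2 ≤ k → 4 * k ≤ X.card → 8 ≤ X.card →
  2 ^ 17 * X.card ^ (4 * k - 5) < K ^ 4 →
  X.card ^ k ≤ 8 * (poorS X k K).card ∨ X.card ^ k ≤ 8 * (poorP (X.erase 0) k K).card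

/-- BD: changing one entry changes the number of values by at most `k N^(k-1)`. -/
def S_BD : Prop := ∀ (α β : Type) [DecidableEq α] [DecidableEq β] (k N : ℕ)
  (g : (Fin k → α) → β) (f : Fin N → α) (i : Fin N) (a : α), 1 ≤ k →
  |(((univ : Finset (Fin k → Fin N)).image (fun ι => g (Function.update f i a ∘ ι))).card : ℝ) -
    (((univ : Finset (Fin k → Fin N)).image (fun ι => g (f ∘ ι))).card : ℝ)| ≤
      (k : ℝ) * (N : ℝ) ^ (k - 1)

/-- SB: from random tuples to random subsets. -/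
def S_SB : Prop := ∀ (α : Type) [DecidableEq α] (X : Finset α) (N : ℕ) (B : Finset α → Prop)
  [DecidablePred B] (δ : ℝ), 2 * N ≤ X.card → 0 ≤ δ →
  (((tup X N).filter (fun f => B (univ.image f))).card : ℝ) ≤ δ * (X.card : ℝ) ^ N →
  (((X.powersetCard N).filter B).card : ℝ) ≤
    δ * Real.exp ((N : ℝ) ^ 2 / X.card) * (X.card.choose N : ℝ)

end Pool.Agent.W250.RS
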